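import Pool.Agent.Q33.Harm.Choose

/-!
Bala's sequence `a(n)` satisfies `a(p) ≡ 1 (mod p^5)` for every prime `p ≥ 5`.

Proof.  For `1 ≤ j < p` the term is `-(p³/j³) (1 - p/j) ∏_{i<j} (1 - p²/i²)²`, so
`a(p) - 1 = -p³ (H₃ - p H₄) (mod p⁵)`, where `H_s = ∑_{j<p} 1/j^s`.  Pairing `j` with `p - j`
gives `2 H₃ ≡ -3 p H₄ (mod p²)`, so `2 (H₃ - p H₄) ≡ -5 p H₄`, and `p ∣ 5 H₄`.
-/

namespace Pool.Agent.Q33.BalaFifth

open Finset

/-- the sequence -/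
def a (n : ℕ) : ℕ :=
  if n = 0 then 1 else
    ∑ j ∈ range n, n.choose j * (n - 1).choose j * ((n + j - 1).choose j) ^ 2

open Q33.Harm in
theorem main (p : ℕ) [hp : Fact p.Prime] (h5 : 5 ≤ p) : (p : ℤ) ^ 5 ∣ (a p : ℤ) - 1 := by
  rw [show ((p : ℤ) ^ 5 : ℤ) = ((p ^ 5 : ℕ) : ℤ) by push_cast; rfl]
  have hgoal : (p : ℤ_[p]) ^ 5 ∣ (((a p : ℤ) - 1 : ℤ) : ℤ_[p]) → ((p ^ 5 : ℕ) : ℤ) ∣ (a p : ℤ) - 1 := by
    intro h
    have := (PadicInt.pow_p_dvd_int_iff 5 ((a p : ℤ) - 1)).mp h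
    exact_mod_cast this
  apply hgoal
  push_cast
  have hp0 : p ≠ 0 := by omega
  have e1 : ((a p : ℕ) : ℤ_[p]) = 1 + ∑ j ∈ Ico 1 p,
      (-(p : ℤ_[p]) ^ 3 * (v p j ^ 3 - p * v p j ^ 4) -
        (p : ℤ_[p]) ^ 3 * (v p j ^ 3 * (1 - p * v p j)) * ((A p j * B p j) ^ 2 - 1)) := by
    rw [a, if_neg hp0, Nat.cast_sum, range_eq_Ico, sum_eq_sum_Ico_succ_bot (by omega)]
    congr 1
    · simp
    · refine sum_congr rfl fun j hj => ?_
      have hj' := hj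
      rw [mem_Ico] at hj'
      push_cast
      rw [choose_p hj, choose_pred j hj'.2, choose_add j hj'.1 hj'.2, A_succ hj'.1]
      have hs : ((-1 : ℤ_[p])) ^ (j - 1) * (-1) ^ j = -1 := by
        rw [← pow_add]
        have : Odd (j - 1 + j) := ⟨j - 1, by omega⟩
        exact this.neg_one_pow
      linear_combination (p : ℤ_[p]) ^ 3 * v p j ^ 3 * (1 - p * v p j) * (A p j * B p j) ^ 2 * hs
  rw [e1, add_sub_cancel_left, sum_sub_distrib, ← mul_sum, sum_sub_distrib, ← mul_sum]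
  refine dvd_sub ?_ (dvd_sum fun j _ => ?_)
  · -- the main part
    have h1 := V_odd (p := p) (s := 3) ⟨1, rfl⟩
    have h2 : (p : ℤ_[p]) ∣ 5 * V p 4 := by
      rcases Nat.lt_or_ge 5 p with h | h
      · refine Dvd.dvd.mul_left (dvd_V ?_) 5
        intro hd
        have := Nat.le_of_dvd (by norm_num) hd
        omega
      · have : p = 5 := le_antisymm h h5
        refine Dvd.dvd.mul_right ?_ _
        have h6 : (p : ℤ_[p]) = 5 := by exact_mod_cast congrArg (fun n : ℕ => (n : ℤ_[p])) this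
        rw [h6]
    have h3 : (p : ℤ_[p]) ^ 2 ∣ 2 * (V p 3 - p * V p 4) := by
      obtain ⟨k, hk⟩ := h1
      obtain ⟨l, hl⟩ := h2
      refine ⟨k - l, ?_⟩
      push_cast at hk
      linear_combination hk - (p : ℤ_[p]) * hl
    have h4 : (p : ℤ_[p]) ^ 2 ∣ V p 3 - p * V p 4 := by
      have h2u : IsUnit ((2 : ℕ) : ℤ_[p]) := isUnit_nat (not_dvd_of_lt (by norm_num) (by omega))
      have := (h2u.dvd_mul_left (a := (p : ℤ_[p]) ^ 2) (b := V p 3 - p * V p 4)).mp (by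
        push_cast; exact h3)
      exact this
    obtain ⟨k, hk⟩ := h4
    refine ⟨-k, ?_⟩
    unfold V at hk
    linear_combination (-(p : ℤ_[p]) ^ 3) * hk
  · obtain ⟨k, hk⟩ := AB_sq (p := p) j
    refine ⟨v p j ^ 3 * (1 - p * v p j) * k, ?_⟩
    linear_combination (p : ℤ_[p]) ^ 3 * (v p j ^ 3 * (1 - p * v p j)) * hk

/-- Bala's congruence: `p ^ 5` divides `a(p) - 1` for every prime `p ≥ 5`. -/
theorem result (p : ℕ) (hp : p.Prime) (h5 : 5 ≤ p) : (p : ℤ) ^ 5 ∣ (a p : ℤ) - 1 := by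
  have : Fact p.Prime := ⟨hp⟩
  exact main p h5

end Pool.Agent.Q33.BalaFifth
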