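import Pool.Agent.Q33.BinSym

set_option autoImplicit false

namespace Pool.Agent.Q33.BinSum

open Finset Pool.Agent.Q33.BinSym

/-- The sum of the `r`-th powers of the multinomial coefficients `n! / (k₁! ⋯ kₘ!)` over all
ordered `m`-tuples of nonnegative integers with sum `n`. -/
def M (m n r : ℕ) : ℕ :=
  ∑ f ∈ Finset.Nat.antidiagonalTuple m n, (Nat.multinomial Finset.univ f) ^ r

theorem multinomial_cons' {m : ℕ} {a k : ℕ} {g : Fin m → ℕ} (hg : ∑ i, g i = k) :
    Nat.multinomial Finset.univ (Fin.cons a g : Fin (m + 1) → ℕ)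
      = (a + k).choose k * Nat.multinomial Finset.univ g := by
  have h1 := Nat.multinomial_spec (Finset.univ : Finset (Fin (m + 1)))
    (Fin.cons a g : Fin (m + 1) → ℕ)
  have h2 := Nat.multinomial_spec (Finset.univ : Finset (Fin m)) g
  rw [Fin.prod_univ_succ, Fin.sum_univ_succ] at h1
  simp only [Fin.cons_zero, Fin.cons_succ] at h1
  rw [hg] at h1 h2
  have h3 := Nat.add_choose_mul_factorial_mul_factorial a k
  have hpos : 0 < a.factorial * ∏ i, (g i).factorial := by
    refine Nat.mul_pos (Nat.factorial_pos _) (Finset.prod_pos fun i _ => Nat.factorial_pos _)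
  apply Nat.eq_of_mul_eq_mul_left hpos
  rw [h1, ← h3, ← h2]
  have : (a + k).choose k = (a + k).choose a := by
    rw [← Nat.choose_symm_add]
  rw [this]
  ring

theorem sum_decomp (m N r : ℕ) (φ : ℕ → ℤ) :
    ∑ f ∈ Finset.Nat.antidiagonalTuple (m + 1) N,
      φ (f 0) * ((Nat.multinomial Finset.univ f : ℕ) : ℤ) ^ r
    = ∑ k ∈ range (N + 1), φ (N - k) * ((N.choose k : ℤ) ^ r * (M m k r : ℤ)) := by
  have h1 : ∀ k ∈ range (N + 1), φ (N - k) * ((N.choose k : ℤ) ^ r * (M m k r : ℤ))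
      = ∑ g ∈ Finset.Nat.antidiagonalTuple m k,
        φ (N - k) * ((N.choose k : ℤ) ^ r * ((Nat.multinomial Finset.univ g : ℕ) : ℤ) ^ r) := by
    intro k _
    rw [M]
    push_cast
    rw [Finset.mul_sum, Finset.mul_sum]
  rw [Finset.sum_congr rfl h1, Finset.sum_sigma']
  refine Finset.sum_bij' (fun f _ => (⟨N - f 0, Fin.tail f⟩ : Σ _ : ℕ, Fin m → ℕ))
    (fun x _ => Fin.cons (N - x.1) x.2) ?_ ?_ ?_ ?_ ?_
  · intro f hf
    rw [Finset.Nat.mem_antidiagonalTuple, Fin.sum_univ_succ] at hf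
    rw [Finset.mem_sigma, Finset.mem_range, Finset.Nat.mem_antidiagonalTuple]
    refine ⟨by dsimp only; omega, ?_⟩
    show ∑ i, Fin.tail f i = N - f 0
    simp only [Fin.tail]
    omega
  · rintro ⟨k, g⟩ hx
    rw [Finset.mem_sigma, Finset.mem_range, Finset.Nat.mem_antidiagonalTuple] at hx
    rw [Finset.Nat.mem_antidiagonalTuple, Fin.sum_univ_succ]
    simp only [Fin.cons_zero, Fin.cons_succ]
    obtain ⟨h2, h3⟩ := hx
    dsimp only at h2 h3
    omega
  · intro f hf
    rw [Finset.Nat.mem_antidiagonalTuple, Fin.sum_univ_succ] at hf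
    have : N - (N - f 0) = f 0 := by omega
    dsimp only
    rw [this]
    exact Fin.cons_self_tail f
  · rintro ⟨k, g⟩ hx
    rw [Finset.mem_sigma, Finset.mem_range] at hx
    have h2 := hx.1
    dsimp only at h2
    have : N - (N - k) = k := by omega
    simp only [Fin.cons_zero, Fin.tail_cons, this]
  · intro f hf
    rw [Finset.Nat.mem_antidiagonalTuple, Fin.sum_univ_succ] at hf
    have hle : f 0 ≤ N := by omega
    have e1 : N - (N - f 0) = f 0 := by omega
    dsimp only
    rw [e1, ← mul_pow]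
    have hg : ∑ i, Fin.tail f i = N - f 0 := by simp only [Fin.tail]; omega
    have h2 := multinomial_cons' (a := f 0) hg
    rw [Fin.cons_self_tail] at h2
    have e2 : f 0 + (N - f 0) = N := by omega
    rw [e2] at h2
    rw [h2]
    push_cast
    rfl

theorem sum_symm (m N r : ℕ) (i : Fin (m + 1)) :
    ∑ f ∈ Finset.Nat.antidiagonalTuple (m + 1) N,
      (f i : ℤ) * ((Nat.multinomial Finset.univ f : ℕ) : ℤ) ^ r
    = ∑ f ∈ Finset.Nat.antidiagonalTuple (m + 1) N,
      (f 0 : ℤ) * ((Nat.multinomial Finset.univ f : ℕ) : ℤ) ^ r := by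
  have hperm : ∀ f : Fin (m + 1) → ℕ,
      Nat.multinomial Finset.univ (f ∘ Equiv.swap 0 i) = Nat.multinomial Finset.univ f := by
    intro f
    unfold Nat.multinomial
    have e1 : ∑ j, (f ∘ Equiv.swap 0 i) j = ∑ j, f j :=
      Equiv.sum_comp (Equiv.swap 0 i) f
    have e2 : ∏ j, ((f ∘ Equiv.swap 0 i) j).factorial = ∏ j, (f j).factorial :=
      Equiv.prod_comp (Equiv.swap 0 i) (fun j => (f j).factorial)
    rw [e1, e2]
  refine Finset.sum_bij' (fun f _ => f ∘ Equiv.swap 0 i) (fun f _ => f ∘ Equiv.swap 0 i)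
    ?_ ?_ ?_ ?_ ?_
  · intro f hf
    rw [Finset.Nat.mem_antidiagonalTuple] at hf ⊢
    rw [← hf]
    exact Equiv.sum_comp (Equiv.swap 0 i) f
  · intro f hf
    rw [Finset.Nat.mem_antidiagonalTuple] at hf ⊢
    rw [← hf]
    exact Equiv.sum_comp (Equiv.swap 0 i) f
  · intro f _
    funext j
    simp
  · intro f _
    funext j
    simp
  · intro f _
    rw [hperm f]
    simp

/-- The symmetric identity
`∑_{k ≤ N} ((m+1)k+m) C(N,k)^r M_{m,k} = m (N+1) M_{m+1,N}`. -/
theorem symm_identity (m N r : ℕ) :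
    ∑ k ∈ range (N + 1), ((N.choose k : ℤ) ^ r) * ((((m : ℤ) + 1) * k + m) * (M m k r : ℤ))
      = (m : ℤ) * (((N : ℤ) + 1) * (M (m + 1) N r : ℤ)) := by
  have h1 : ((m : ℤ) + 1) * ∑ f ∈ Finset.Nat.antidiagonalTuple (m + 1) N,
      (f 0 : ℤ) * ((Nat.multinomial Finset.univ f : ℕ) : ℤ) ^ r
      = (N : ℤ) * ∑ f ∈ Finset.Nat.antidiagonalTuple (m + 1) N,
        ((Nat.multinomial Finset.univ f : ℕ) : ℤ) ^ r := by
    have h2 : ∑ i : Fin (m + 1), ∑ f ∈ Finset.Nat.antidiagonalTuple (m + 1) N,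
        (f i : ℤ) * ((Nat.multinomial Finset.univ f : ℕ) : ℤ) ^ r
        = ((m : ℤ) + 1) * ∑ f ∈ Finset.Nat.antidiagonalTuple (m + 1) N,
          (f 0 : ℤ) * ((Nat.multinomial Finset.univ f : ℕ) : ℤ) ^ r := by
      rw [Finset.sum_congr rfl (fun i _ => sum_symm m N r i)]
      simp
    rw [← h2, Finset.sum_comm, Finset.mul_sum]
    refine Finset.sum_congr rfl fun f hf => ?_
    rw [Finset.Nat.mem_antidiagonalTuple] at hf
    rw [← Finset.sum_mul]
    congr 1
    exact_mod_cast hf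
  have h3 := sum_decomp m N r (fun a => ((m : ℤ) + 1) * ((N : ℤ) - a) + m)
  have h4 : ∑ k ∈ range (N + 1), ((N.choose k : ℤ) ^ r) *
        ((((m : ℤ) + 1) * k + m) * (M m k r : ℤ))
      = ∑ k ∈ range (N + 1), (((m : ℤ) + 1) * ((N : ℤ) - ((N - k : ℕ) : ℤ)) + m)
        * ((N.choose k : ℤ) ^ r * (M m k r : ℤ)) := by
    refine Finset.sum_congr rfl fun k hk => ?_
    have hk' : k ≤ N := by have := Finset.mem_range.1 hk; omega
    rw [Nat.cast_sub hk']
    ring
  rw [h4, ← h3]
  have h5 : ∑ f ∈ Finset.Nat.antidiagonalTuple (m + 1) N,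
      (((m : ℤ) + 1) * ((N : ℤ) - (f 0 : ℤ)) + m)
        * ((Nat.multinomial Finset.univ f : ℕ) : ℤ) ^ r
      = (((m : ℤ) + 1) * N + m) * ∑ f ∈ Finset.Nat.antidiagonalTuple (m + 1) N,
        ((Nat.multinomial Finset.univ f : ℕ) : ℤ) ^ r
        - ((m : ℤ) + 1) * ∑ f ∈ Finset.Nat.antidiagonalTuple (m + 1) N,
          (f 0 : ℤ) * ((Nat.multinomial Finset.univ f : ℕ) : ℤ) ^ r := by
    rw [Finset.mul_sum, Finset.mul_sum, ← Finset.sum_sub_distrib]
    refine Finset.sum_congr rfl fun f _ => ?_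
    ring
  rw [h5, h1, M]
  push_cast
  ring

/-- General divisibility criterion, exponent `r ≥ 1`. -/
theorem criterion {r : ℕ} (hr : 1 ≤ r) {m : ℤ} (hm : m ≠ 0) (x w : ℕ → ℤ)
    (h : ∀ j : ℕ, ∑ k ∈ range (j + 1), ((j.choose k : ℤ) ^ r) * x k
      = m * (((j : ℤ) + 1) * w j)) {n : ℕ} (hn : 1 ≤ n) :
    (m * n) ∣ ∑ k ∈ range n, (-1) ^ (r * k) * x k := by
  -- value of the sum from a representation
  have hval : ∀ μ : ℕ → ℤ, (∀ k < n, ∑ j ∈ range n, μ j * chi (j + 1) k ^ r = 1) →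
      ∑ k ∈ range n, (-1) ^ (r * k) * x k = m * ∑ j ∈ range n, (((j : ℤ) + 1) * μ j) * w j := by
    intro μ hμ
    have h1 : ∀ k ∈ range n, (-1 : ℤ) ^ (r * k) * x k
        = ∑ j ∈ range n, μ j * (((j.choose k : ℤ) ^ r) * x k) := by
      intro k hk
      have h2 := hμ k (Finset.mem_range.1 hk)
      calc (-1 : ℤ) ^ (r * k) * x k
          = (-1 : ℤ) ^ (r * k) * x k * ∑ j ∈ range n, μ j * chi (j + 1) k ^ r := by
            rw [h2, mul_one]
        _ = _ := by
            rw [Finset.mul_sum]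
            refine Finset.sum_congr rfl fun j _ => ?_
            unfold chi
            rw [Nat.add_sub_cancel, mul_pow]
            have h3 : ((-1 : ℤ) ^ (r * k)) * (((-1 : ℤ) ^ k) ^ r) = 1 := by
              rw [← pow_mul, mul_comm k r, ← pow_add, ← two_mul, pow_mul]
              norm_num
            linear_combination (μ j * (j.choose k : ℤ) ^ r * x k) * h3
    rw [Finset.sum_congr rfl h1, Finset.sum_comm, Finset.mul_sum]
    refine Finset.sum_congr rfl fun j hj => ?_
    have hj' := Finset.mem_range.1 hj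
    rw [← Finset.mul_sum]
    have h4 : ∑ k ∈ range n, ((j.choose k : ℤ) ^ r) * x k
        = ∑ k ∈ range (j + 1), ((j.choose k : ℤ) ^ r) * x k := by
      symm
      refine Finset.sum_subset (Finset.range_subset_range.2 (by omega)) fun k _ hk => ?_
      rw [Finset.mem_range, not_lt] at hk
      rw [Nat.choose_eq_zero_of_lt (by omega), Nat.cast_zero, zero_pow (by omega), zero_mul]
    rw [h4, h j]
    ring
  obtain ⟨μ0, hμ0⟩ := expand hr n (fun _ => 1)
  set T := ∑ j ∈ range n, (((j : ℤ) + 1) * μ0 j) * w j with hT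
  have hS : ∑ k ∈ range n, (-1) ^ (r * k) * x k = m * T := hval μ0 hμ0
  rw [hS]
  refine mul_dvd_mul_left _ ?_
  have habs : (n : ℤ) ∣ ((T.natAbs : ℕ) : ℤ) → (n : ℤ) ∣ T := fun hh => by
    rw [Int.natCast_natAbs] at hh
    exact (dvd_abs _ _).1 hh
  apply habs
  rw [Int.natCast_dvd_natCast, Nat.dvd_iff_prime_pow_dvd_dvd]
  intro p a hp hd
  obtain ⟨μ, h1, h2⟩ := rep hp hr a n hn hd
  have h3 := hval μ h1
  have h4 : T = ∑ j ∈ range n, (((j : ℤ) + 1) * μ j) * w j := by
    rw [hS] at h3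
    exact mul_left_cancel₀ hm h3
  have h5 : ((p : ℤ) ^ a) ∣ T := by
    rw [h4]
    exact Finset.dvd_sum fun j hj => Dvd.dvd.mul_right (h2 j (Finset.mem_range.1 hj)) _
  rw [← Int.natCast_dvd_natCast, Int.natCast_natAbs]
  push_cast
  exact (dvd_abs _ _).2 h5

/-- The refinement with an additional factor `2` for odd exponents and odd `w`. -/
theorem criterion_two {r : ℕ} (hr : Odd r) {m : ℤ} (hm : m ≠ 0) (x w : ℕ → ℤ)
    (hw : ∀ j, Odd (w j))
    (h : ∀ j : ℕ, ∑ k ∈ range (j + 1), ((j.choose k : ℤ) ^ r) * x k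
      = m * (((j : ℤ) + 1) * w j)) {n : ℕ} (hn : 1 < n) :
    (m * (2 * n)) ∣ ∑ k ∈ range n, (-1) ^ (r * k) * x k := by
  have hr1 : 1 ≤ r := hr.pos
  have hval : ∀ μ : ℕ → ℤ, (∀ k < n, ∑ j ∈ range n, μ j * chi (j + 1) k ^ r = 1) →
      ∑ k ∈ range n, (-1) ^ (r * k) * x k = m * ∑ j ∈ range n, (((j : ℤ) + 1) * μ j) * w j := by
    intro μ hμ
    have h1 : ∀ k ∈ range n, (-1 : ℤ) ^ (r * k) * x k
        = ∑ j ∈ range n, μ j * (((j.choose k : ℤ) ^ r) * x k) := by
      intro k hk
      have h2 := hμ k (Finset.mem_range.1 hk)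
      calc (-1 : ℤ) ^ (r * k) * x k
          = (-1 : ℤ) ^ (r * k) * x k * ∑ j ∈ range n, μ j * chi (j + 1) k ^ r := by
            rw [h2, mul_one]
        _ = _ := by
            rw [Finset.mul_sum]
            refine Finset.sum_congr rfl fun j _ => ?_
            unfold chi
            rw [Nat.add_sub_cancel, mul_pow]
            have h3 : ((-1 : ℤ) ^ (r * k)) * (((-1 : ℤ) ^ k) ^ r) = 1 := by
              rw [← pow_mul, mul_comm k r, ← pow_add, ← two_mul, pow_mul]
              norm_num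
            linear_combination (μ j * (j.choose k : ℤ) ^ r * x k) * h3
    rw [Finset.sum_congr rfl h1, Finset.sum_comm, Finset.mul_sum]
    refine Finset.sum_congr rfl fun j hj => ?_
    have hj' := Finset.mem_range.1 hj
    rw [← Finset.mul_sum]
    have h4 : ∑ k ∈ range n, ((j.choose k : ℤ) ^ r) * x k
        = ∑ k ∈ range (j + 1), ((j.choose k : ℤ) ^ r) * x k := by
      symm
      refine Finset.sum_subset (Finset.range_subset_range.2 (by omega)) fun k _ hk => ?_
      rw [Finset.mem_range, not_lt] at hk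
      rw [Nat.choose_eq_zero_of_lt (by omega), Nat.cast_zero, zero_pow (by omega), zero_mul]
    rw [h4, h j]
    ring
  obtain ⟨μ0, hμ0⟩ := expand hr1 n (fun _ => 1)
  set T := ∑ j ∈ range n, (((j : ℤ) + 1) * μ0 j) * w j with hT
  have hS : ∑ k ∈ range n, (-1) ^ (r * k) * x k = m * T := hval μ0 hμ0
  rw [hS]
  refine mul_dvd_mul_left _ ?_
  -- odd part of `n`
  obtain ⟨v, u, hu, hvu⟩ := Nat.exists_eq_two_pow_mul_odd (n := n) (by omega)
  have hTn : (n : ℤ) ∣ T := by
    have := criterion hr1 hm x w h (n := n) (by omega)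
    rw [hS] at this
    exact (mul_dvd_mul_iff_left hm).1 this
  -- the two-adic part
  have h2T : ((2 : ℤ) ^ (v + 1)) ∣ T := by
    obtain ⟨μ, h1, h2⟩ := rep Nat.prime_two hr1 v n (by omega) (by rw [hvu]; exact Dvd.intro _ rfl)
    have h3 := hval μ h1
    have h4 : T = ∑ j ∈ range n, (((j : ℤ) + 1) * μ j) * w j := by
      rw [hS] at h3
      exact mul_left_cancel₀ hm h3
    -- evaluation at `k = 0` and `k = 1`
    have e0 := h1 0 (by omega)
    have e1 := h1 1 hn
    have hodd : ∀ j : ℕ, ∃ o : ℤ, Odd o ∧ 1 + (j : ℤ) ^ r = ((j : ℤ) + 1) * o := by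
      intro j
      obtain ⟨o, ho⟩ : ((j : ℤ) + 1) ∣ (j : ℤ) ^ r + 1 := by
        have := Odd.add_dvd_pow_add_pow (j : ℤ) 1 hr
        simpa using this
      refine ⟨o, ?_, by rw [← ho]; ring⟩
      -- parity of the cofactor
      have hgeom : (j : ℤ) ^ r + 1 = ((j : ℤ) + 1) * ∑ i ∈ range r, (-(j : ℤ)) ^ i := by
        have := mul_geom_sum (-(j : ℤ)) r
        have hneg : (-(j : ℤ)) ^ r = - (j : ℤ) ^ r := hr.neg_pow _
        rw [hneg] at this
        linear_combination this
      have hj0 : ((j : ℤ) + 1) ≠ 0 := by positivity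
      have ho' : o = ∑ i ∈ range r, (-(j : ℤ)) ^ i := by
        apply mul_left_cancel₀ hj0
        rw [← ho, hgeom]
      rw [ho']
      rcases Nat.even_or_odd j with hj | hj
      · obtain ⟨r', rfl⟩ : ∃ r', r = r' + 1 := ⟨r - 1, by omega⟩
        rw [Finset.sum_range_succ', pow_zero]
        refine Even.add_one ?_
        refine Finset.even_sum _ fun i _ => ?_
        have : Even (-(j : ℤ)) := by
          have : Even (j : ℤ) := by exact_mod_cast hj
          exact this.neg
        exact this.pow_of_ne_zero (by omega)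
      · have hmod : (∑ i ∈ range r, (-(j : ℤ)) ^ i) ≡ ∑ i ∈ range r, 1 [ZMOD 2] := by
          refine Int.ModEq.sum fun i _ => ?_
          have h7 : Odd (-(j : ℤ)) := by
            have : Odd (j : ℤ) := by exact_mod_cast hj
            exact this.neg
          exact Int.odd_iff.1 h7.pow
        rw [Int.odd_iff]
        rw [hmod]
        simp only [Finset.sum_const, Finset.card_range, nsmul_eq_mul, mul_one]
        have : Odd (r : ℤ) := by exact_mod_cast hr
        exact Int.odd_iff.1 this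
    choose o ho1 ho2 using hodd
    have hzero : ∑ j ∈ range n, (((j : ℤ) + 1) * μ j) * o j = 0 := by
      have e2 : ∑ j ∈ range n, (((j : ℤ) + 1) * μ j) * o j
          = ∑ j ∈ range n, μ j * chi (j + 1) 0 ^ r - ∑ j ∈ range n, μ j * chi (j + 1) 1 ^ r := by
        rw [← Finset.sum_sub_distrib]
        refine Finset.sum_congr rfl fun j _ => ?_
        have c0 : chi (j + 1) 0 = 1 := chi_zero_right _
        have c1 : chi (j + 1) 1 = -(j : ℤ) := by simp [chi]
        rw [c0, c1, hr.neg_pow, one_pow]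
        linear_combination (-μ j) * ho2 j
      rw [e2, e0, e1, sub_self]
    have e3 : T = ∑ j ∈ range n, (((j : ℤ) + 1) * μ j) * (w j - o j) := by
      rw [h4]
      have : ∑ j ∈ range n, (((j : ℤ) + 1) * μ j) * (w j - o j)
          = ∑ j ∈ range n, (((j : ℤ) + 1) * μ j) * w j
            - ∑ j ∈ range n, (((j : ℤ) + 1) * μ j) * o j := by
        rw [← Finset.sum_sub_distrib]
        refine Finset.sum_congr rfl fun j _ => ?_
        ring
      rw [this, hzero, sub_zero]
    rw [e3, pow_succ]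
    refine Finset.dvd_sum fun j hj => ?_
    refine mul_dvd_mul ?_ ?_
    · have := h2 j (Finset.mem_range.1 hj)
      push_cast at this
      exact this
    · exact even_iff_two_dvd.1 ((hw j).sub_odd (ho1 j))
  have huT : (u : ℤ) ∣ T := (Dvd.intro_left ((2 : ℤ) ^ v) (by rw [hvu]; push_cast; ring)).trans hTn
  have hcop : IsCoprime ((2 : ℤ) ^ (v + 1)) (u : ℤ) := by
    apply IsCoprime.pow_left
    rw [Int.isCoprime_iff_gcd_eq_one]
    have : Nat.Coprime 2 u := Nat.coprime_two_left.2 hu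
    exact_mod_cast this
  have := hcop.mul_dvd h2T huT
  have e : (2 : ℤ) * n = 2 ^ (v + 1) * u := by
    rw [hvu]; push_cast; ring
  rw [e]
  exact this

/-- `mn` divides `∑_{k<n} (-1)^{rk} ((m+1)k+m) M_{m,k}^{(r)}`. -/
theorem main (m n r : ℕ) (hm : 1 ≤ m) (hn : 1 ≤ n) :
    ((m * n : ℕ) : ℤ) ∣
      ∑ k ∈ range n, (-1) ^ (r * k) * ((((m : ℤ) + 1) * k + m) * (M m k r : ℤ)) := by
  rcases Nat.eq_zero_or_pos r with h0 | hr
  · subst h0
    obtain ⟨N, rfl⟩ : ∃ N, n = N + 1 := ⟨n - 1, by omega⟩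
    have h := symm_identity m N 0
    simp only [pow_zero, one_mul] at h
    simp only [zero_mul, pow_zero, one_mul]
    rw [h]
    exact ⟨(M (m + 1) N 0 : ℤ), by push_cast; ring⟩
  · have hm0 : (m : ℤ) ≠ 0 := by exact_mod_cast (by omega : m ≠ 0)
    have := criterion hr hm0 (fun k => (((m : ℤ) + 1) * k + m) * (M m k r : ℤ))
      (fun j => (M (m + 1) j r : ℤ)) (fun j => symm_identity m j r) hn
    push_cast
    exact this

/-- Franel type numbers. -/
theorem M_two (n r : ℕ) : M 2 n r = ∑ k ∈ range (n + 1), n.choose k ^ r := by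
  rw [M, Finset.Nat.antidiagonalTuple_two, Finset.sum_map,
    Finset.Nat.sum_antidiagonal_eq_sum_range_succ_mk]
  refine Finset.sum_congr rfl fun k hk => ?_
  have hk' : k ≤ n := by have := Finset.mem_range.1 hk; omega
  refine congrArg (fun x => x ^ r) ?_
  show Nat.multinomial Finset.univ ![k, n - k] = n.choose k
  rw [Nat.multinomial_univ_two, Nat.choose_eq_factorial_div_factorial hk',
    Nat.add_sub_cancel' hk']

theorem M_succ (m N r : ℕ) :
    (M (m + 1) N r : ℤ) = ∑ k ∈ range (N + 1), (N.choose k : ℤ) ^ r * (M m k r : ℤ) := by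
  have h := sum_decomp m N r (fun _ => 1)
  simp only [one_mul] at h
  rw [← h, M]
  push_cast
  rfl

/-- Multinomial theorem: `M_{m,n}^{(1)} = m^n`. -/
theorem M_one (m n : ℕ) : M m n 1 = m ^ n := by
  induction m generalizing n with
  | zero =>
    rcases Nat.eq_zero_or_pos n with h | h
    · subst h
      simp [M]
    · obtain ⟨k, rfl⟩ : ∃ k, n = k + 1 := ⟨n - 1, by omega⟩
      simp [M]
  | succ m ih =>
    have h := M_succ m n 1
    have h2 : ((m : ℤ) + 1) ^ n = ∑ k ∈ range (n + 1), (n.choose k : ℤ) ^ 1 * ((m : ℤ) ^ k) := by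
      rw [add_pow]
      refine Finset.sum_congr rfl fun k _ => ?_
      ring
    have h3 : (M (m + 1) n 1 : ℤ) = ((m + 1 : ℕ) : ℤ) ^ n := by
      rw [h]
      push_cast
      rw [h2]
      refine Finset.sum_congr rfl fun k _ => ?_
      rw [ih k]
      push_cast
      ring
    exact_mod_cast h3

/-- `M_{3,n}^{(r)}` is odd for `r ≥ 1`. -/
theorem M_three_odd (n : ℕ) {r : ℕ} (hr : 1 ≤ r) : Odd (M 3 n r : ℤ) := by
  have h1 : M 3 n r ≡ M 3 n 1 [MOD 2] := by
    unfold M
    refine Nat.ModEq.sum fun f _ => ?_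
    rw [pow_one]
    rcases Nat.even_or_odd (Nat.multinomial Finset.univ f) with h | h
    · have h2 : Even (Nat.multinomial Finset.univ f ^ r) := h.pow_of_ne_zero (by omega)
      exact (Nat.even_iff.1 h2).trans (Nat.even_iff.1 h).symm
    · have h2 : Odd (Nat.multinomial Finset.univ f ^ r) := h.pow
      exact (Nat.odd_iff.1 h2).trans (Nat.odd_iff.1 h).symm
  rw [M_one] at h1
  have h3 : Odd (3 ^ n) := Odd.pow (by decide)
  have h4 : Odd (M 3 n r) := by
    rw [Nat.odd_iff] at h3 ⊢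
    rw [h1, h3]
  exact_mod_cast h4

end Pool.Agent.Q33.BinSum
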