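import Mathlib

set_option autoImplicit false

/-!
Congruences for alternating sums of powers of multinomial coefficients.
-/

namespace Pool.Agent.Q33.BinSym

open Finset

/-- `χ n k = (-1)^k C(n-1,k)`. -/
def chi (n k : ℕ) : ℤ := (-1) ^ k * ((n - 1).choose k : ℤ)

theorem chi_zero_right (n : ℕ) : chi n 0 = 1 := by simp [chi]

theorem chi_succ {n : ℕ} (hn : 1 ≤ n) (k : ℕ) :
    ((k : ℤ) + 1) * chi n (k + 1) = ((k : ℤ) + 1 - n) * chi n k := by
  obtain ⟨m, rfl⟩ : ∃ m, n = m + 1 := ⟨n - 1, by omega⟩
  unfold chi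
  rw [Nat.add_sub_cancel]
  have h := Nat.choose_succ_right_eq m k
  rcases le_or_gt k m with hk | hk
  · have h' : (m.choose (k + 1) : ℤ) * (k + 1) = m.choose k * ((m : ℤ) - k) := by
      have := congrArg (Nat.cast : ℕ → ℤ) h
      push_cast [Nat.cast_sub hk] at this
      exact this
    rw [pow_succ]
    push_cast
    linear_combination (-1) ^ k * (-1) * h'
  · rw [Nat.choose_eq_zero_of_lt hk, Nat.choose_eq_zero_of_lt (by omega)]
    simp

/-- The product of the integers `1 ≤ j ≤ k` prime to `p`. -/
def Qp (p : ℕ) : ℕ → ℤ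
  | 0 => 1
  | k + 1 => if p ∣ k + 1 then Qp p k else Qp p k * ((k : ℤ) + 1)

/-- The product of `j - n` over the integers `1 ≤ j ≤ k` prime to `p`. -/
def Pp (p n : ℕ) : ℕ → ℤ
  | 0 => 1
  | k + 1 => if p ∣ k + 1 then Pp p n k else Pp p n k * ((k : ℤ) + 1 - n)

theorem chi_mul_Qp {p M : ℕ} (hp : 0 < p) (hM : 1 ≤ M) (k : ℕ) :
    chi (p * M) k * Qp p k = chi M (k / p) * Pp p (p * M) k := by
  have hpM : 1 ≤ p * M := Nat.mul_pos hp hM
  induction k with
  | zero => simp [Qp, Pp, chi_zero_right]
  | succ k ih =>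
    have h1 := chi_succ hpM k
    have hk0 : ((k : ℤ) + 1) ≠ 0 := by positivity
    by_cases hd : p ∣ k + 1
    · simp only [Qp, Pp, if_pos hd]
      obtain ⟨l, hl⟩ := hd
      obtain ⟨l', rfl⟩ : ∃ l', l = l' + 1 := by
        rcases Nat.eq_zero_or_pos l with h | h
        · subst h; simp at hl
        · exact ⟨l - 1, by omega⟩
      have e1 : (k + 1) / p = l' + 1 := by rw [hl]; exact Nat.mul_div_cancel_left _ hp
      have e2 : k / p = l' := by
        have : k = p * l' + (p - 1) := by
          have : p * (l' + 1) = p * l' + p := by ring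
          omega
        rw [this, Nat.mul_add_div hp, Nat.div_eq_of_lt (by omega)]
        rfl
      rw [e1]
      rw [e2] at ih
      have h2 := chi_succ hM l'
      have hl0 : ((l' : ℤ) + 1) ≠ 0 := by positivity
      have hp0 : (p : ℤ) ≠ 0 := by exact_mod_cast hp.ne'
      have h3 : ((l' : ℤ) + 1) * chi (p * M) (k + 1) = ((l' : ℤ) + 1 - M) * chi (p * M) k := by
        have hk : ((k : ℤ) + 1) = p * ((l' : ℤ) + 1) := by exact_mod_cast hl
        rw [hk] at h1
        push_cast at h1
        apply mul_left_cancel₀ hp0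
        linear_combination h1
      apply mul_left_cancel₀ hl0
      linear_combination Qp p k * h3 + ((l' : ℤ) + 1 - M) * ih - Pp p (p * M) k * h2
    · simp only [Qp, Pp, if_neg hd]
      have e1 : (k + 1) / p = k / p := by
        rw [Nat.succ_div, if_neg hd]
        rfl
      rw [e1]
      push_cast at h1 ⊢
      linear_combination Qp p k * h1 + ((k : ℤ) + 1 - (p * M)) * ih

theorem Pp_sub_Qp {p n i : ℕ} (h : p ^ i ∣ n) (k : ℕ) : ((p : ℤ) ^ i) ∣ Pp p n k - Qp p k := by
  have h' : ((p : ℤ) ^ i) ∣ (n : ℤ) := by exact_mod_cast h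
  induction k with
  | zero => simp [Pp, Qp]
  | succ k ih =>
    by_cases hd : p ∣ k + 1
    · simpa only [Pp, Qp, if_pos hd] using ih
    · simp only [Pp, Qp, if_neg hd]
      have : Pp p n k * ((k : ℤ) + 1 - n) - Qp p k * ((k : ℤ) + 1)
          = (Pp p n k - Qp p k) * ((k : ℤ) + 1) - Pp p n k * n := by ring
      rw [this]
      exact dvd_sub (Dvd.dvd.mul_right ih _) (Dvd.dvd.mul_left h' _)

theorem coprime_Qp {p : ℕ} (hp : p.Prime) (k : ℕ) : IsCoprime (p : ℤ) (Qp p k) := by
  have hpi : Prime (p : ℤ) := Nat.prime_iff_prime_int.1 hp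
  induction k with
  | zero => simpa [Qp] using isCoprime_one_right
  | succ k ih =>
    by_cases hd : p ∣ k + 1
    · simpa only [Qp, if_pos hd] using ih
    · simp only [Qp, if_neg hd]
      refine IsCoprime.mul_right ih ?_
      rw [Prime.coprime_iff_not_dvd hpi]
      exact_mod_cast hd

/-- The key congruence. -/
theorem chi_congr {p M i : ℕ} (hp : p.Prime) (hM : 1 ≤ M) (hi : p ^ i ∣ p * M) (k : ℕ) :
    ((p : ℤ) ^ i) ∣ chi (p * M) k - chi M (k / p) := by
  have h1 := chi_mul_Qp hp.pos hM k
  have h2 := Pp_sub_Qp hi k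
  have h3 : ((p : ℤ) ^ i) ∣ (chi (p * M) k - chi M (k / p)) * Qp p k := by
    have : (chi (p * M) k - chi M (k / p)) * Qp p k
        = chi M (k / p) * (Pp p (p * M) k - Qp p k) := by
      linear_combination h1
    rw [this]
    exact Dvd.dvd.mul_left h2 _
  exact (IsCoprime.pow_left (coprime_Qp hp k)).dvd_of_dvd_mul_right h3

/-- Unitriangular expansion. -/
theorem expand {r : ℕ} (hr : 1 ≤ r) (n : ℕ) (g : ℕ → ℤ) :
    ∃ e : ℕ → ℤ, ∀ k < n, ∑ j ∈ range n, e j * chi (j + 1) k ^ r = g k := by
  induction n generalizing g with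
  | zero => exact ⟨0, fun k hk => absurd hk (by omega)⟩
  | succ n ih =>
    set s : ℤ := ((-1) ^ n) ^ r with hs
    have hss : s * s = 1 := by
      rw [hs, ← mul_pow, ← mul_pow]; norm_num
    obtain ⟨e, he⟩ := ih (fun k => g k - s * g n * chi (n + 1) k ^ r)
    refine ⟨fun j => if j = n then s * g n else e j, ?_⟩
    intro k hk
    rw [Finset.sum_range_succ]
    simp only [if_true]
    have h1 : ∑ j ∈ range n, (if j = n then s * g n else e j) * chi (j + 1) k ^ r
        = ∑ j ∈ range n, e j * chi (j + 1) k ^ r := by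
      refine Finset.sum_congr rfl fun j hj => ?_
      rw [if_neg (by have := Finset.mem_range.1 hj; omega)]
    rw [h1]
    rcases Nat.lt_succ_iff_lt_or_eq.1 hk with h | h
    · rw [he k h]; ring
    · subst h
      have h2 : ∑ j ∈ range k, e j * chi (j + 1) k ^ r = 0 := by
        refine Finset.sum_eq_zero fun j hj => ?_
        have : chi (j + 1) k = 0 := by
          unfold chi
          rw [Nat.choose_eq_zero_of_lt (by have := Finset.mem_range.1 hj; omega)]
          simp
        rw [this, zero_pow (by omega), mul_zero]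
      have h3 : chi (k + 1) k ^ r = s := by
        unfold chi
        rw [Nat.add_sub_cancel, Nat.choose_self, Nat.cast_one, mul_one]
      rw [h2, h3]
      linear_combination g k * hss

/-- The main representation lemma. -/
theorem rep {p : ℕ} (hp : p.Prime) {r : ℕ} (hr : 1 ≤ r) :
    ∀ (a n : ℕ), 1 ≤ n → p ^ a ∣ n →
    ∃ μ : ℕ → ℤ, (∀ k < n, ∑ j ∈ range n, μ j * chi (j + 1) k ^ r = 1) ∧
      ∀ j < n, ((p : ℤ) ^ a) ∣ ((j : ℤ) + 1) * μ j := by
  intro a
  induction a with
  | zero =>
    intro n _ _
    obtain ⟨e, he⟩ := expand hr n (fun _ => 1)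
    exact ⟨e, he, fun j _ => by simp⟩
  | succ a ih =>
    intro n hn hd
    obtain ⟨M, rfl⟩ : p ∣ n := (Dvd.intro_left (p ^ a) (by rw [pow_succ])).trans hd
    have hM : 1 ≤ M := Nat.pos_of_mul_pos_left (by omega : 0 < p * M) |> fun h => by
      rcases Nat.eq_zero_or_pos M with h0 | h0
      · subst h0; simp at hn
      · exact h0
    have hdM : p ^ a ∣ M := by
      rw [pow_succ'] at hd
      exact (Nat.mul_dvd_mul_iff_left hp.pos).1 hd
    obtain ⟨μ, hμ1, hμ2⟩ := ih M hM hdM
    -- the difference is divisible by `p ^ (a + 1)`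
    have hE : ∀ k < p * M, ∃ E : ℤ,
        1 - ∑ j ∈ range M, μ j * chi (p * (j + 1)) k ^ r = (p : ℤ) ^ (a + 1) * E := by
      intro k hk
      have hk' : k / p < M := Nat.div_lt_of_lt_mul hk
      have h1 := hμ1 (k / p) hk'
      have h2 : 1 - ∑ j ∈ range M, μ j * chi (p * (j + 1)) k ^ r
          = - ∑ j ∈ range M, μ j * (chi (p * (j + 1)) k ^ r - chi (j + 1) (k / p) ^ r) := by
        rw [← h1, ← Finset.sum_sub_distrib, ← Finset.sum_neg_distrib]
        refine Finset.sum_congr rfl fun j _ => ?_
        ring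
      rw [h2]
      have h3 : ((p : ℤ) ^ (a + 1)) ∣
          ∑ j ∈ range M, μ j * (chi (p * (j + 1)) k ^ r - chi (j + 1) (k / p) ^ r) := by
        refine Finset.dvd_sum fun j hj => ?_
        -- write `j + 1 = p ^ v * u`
        obtain ⟨v, u, hu, hvu⟩ := Nat.exists_eq_pow_mul_and_not_dvd
          (show j + 1 ≠ 0 by omega) p hp.ne_one
        have h4 : ((p : ℤ) ^ (v + 1)) ∣ chi (p * (j + 1)) k - chi (j + 1) (k / p) := by
          apply chi_congr hp (by omega)
          rw [hvu, pow_succ']
          exact ⟨u, by ring⟩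
        have h5 : ((p : ℤ) ^ (v + 1)) ∣ chi (p * (j + 1)) k ^ r - chi (j + 1) (k / p) ^ r :=
          h4.trans (sub_dvd_pow_sub_pow _ _ _)
        have h6 := hμ2 j (Finset.mem_range.1 hj)
        have h7 : ((p : ℤ) ^ a) ∣ (p : ℤ) ^ v * μ j := by
          have h8 : ((j : ℤ) + 1) = (p : ℤ) ^ v * u := by exact_mod_cast hvu
          rw [h8] at h6
          have h9 : IsCoprime ((p : ℤ) ^ a) (u : ℤ) := by
            apply IsCoprime.pow_left
            rw [Prime.coprime_iff_not_dvd (Nat.prime_iff_prime_int.1 hp)]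
            exact_mod_cast hu
          apply h9.dvd_of_dvd_mul_left
          have : (u : ℤ) * ((p : ℤ) ^ v * μ j) = (p : ℤ) ^ v * u * μ j := by ring
          rw [this]
          exact h6
        obtain ⟨c, hc⟩ := h5
        rw [hc]
        have h10 : μ j * ((p : ℤ) ^ (v + 1) * c) = (p : ℤ) * ((p : ℤ) ^ v * μ j) * c := by ring
        rw [h10, pow_succ']
        exact Dvd.dvd.mul_right (mul_dvd_mul_left _ h7) _
      obtain ⟨E, hE⟩ := h3
      exact ⟨-E, by rw [hE]; ring⟩
    have hE' : ∀ k : ℕ, ∃ E : ℤ, k < p * M →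
        1 - ∑ j ∈ range M, μ j * chi (p * (j + 1)) k ^ r = (p : ℤ) ^ (a + 1) * E := by
      intro k
      by_cases hk : k < p * M
      · obtain ⟨E, h⟩ := hE k hk
        exact ⟨E, fun _ => h⟩
      · exact ⟨0, fun h => absurd h hk⟩
    choose E hE'' using hE'
    obtain ⟨e, he⟩ := expand hr (p * M) E
    -- the new coefficients
    refine ⟨fun j => (if p ∣ j + 1 then μ ((j + 1) / p - 1) else 0) + (p : ℤ) ^ (a + 1) * e j,
      ?_, ?_⟩
    · intro k hk
      have h1 := hE'' k hk
      have h2 := he k hk
      have h3 : ∑ j ∈ range (p * M), (if p ∣ j + 1 then μ ((j + 1) / p - 1) else 0)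
          * chi (j + 1) k ^ r = ∑ j ∈ range M, μ j * chi (p * (j + 1)) k ^ r := by
        have hinj : Set.InjOn (fun j => p * (j + 1) - 1) (range M : Set ℕ) := by
          intro x _ y _ hxy
          simp only at hxy
          have hx : 1 ≤ p * (x + 1) := Nat.mul_pos hp.pos (by omega)
          have hy : 1 ≤ p * (y + 1) := Nat.mul_pos hp.pos (by omega)
          have : p * (x + 1) = p * (y + 1) := by omega
          have := Nat.eq_of_mul_eq_mul_left hp.pos this
          omega
        have hsub : (range M).image (fun j => p * (j + 1) - 1) ⊆ range (p * M) := by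
          intro x hx
          rw [Finset.mem_image] at hx
          obtain ⟨j, hj, rfl⟩ := hx
          rw [Finset.mem_range] at hj ⊢
          have h5 : p * (j + 1) ≤ p * M := Nat.mul_le_mul_left _ (by omega)
          have hx : 1 ≤ p * (j + 1) := Nat.mul_pos hp.pos (by omega)
          omega
        have hzero : ∀ x ∈ range (p * M), x ∉ (range M).image (fun j => p * (j + 1) - 1) →
            (if p ∣ x + 1 then μ ((x + 1) / p - 1) else 0) * chi (x + 1) k ^ r = 0 := by
          intro x hx hx2
          rw [if_neg, zero_mul]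
          rintro ⟨l, hl⟩
          apply hx2
          rw [Finset.mem_image]
          rw [Finset.mem_range] at hx
          have hl0 : 1 ≤ l := by
            rcases Nat.eq_zero_or_pos l with h | h
            · subst h; simp at hl
            · exact h
          refine ⟨l - 1, ?_, ?_⟩
          · rw [Finset.mem_range]
            have : p * l ≤ p * M := by omega
            have := Nat.le_of_mul_le_mul_left this hp.pos
            omega
          · rw [Nat.sub_add_cancel hl0, ← hl]
            omega
        rw [← Finset.sum_subset hsub hzero, Finset.sum_image hinj]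
        refine Finset.sum_congr rfl fun j _ => ?_
        have hx : 1 ≤ p * (j + 1) := Nat.mul_pos hp.pos (by omega)
        have e1 : p * (j + 1) - 1 + 1 = p * (j + 1) := by omega
        rw [e1, if_pos (Dvd.intro _ rfl), Nat.mul_div_cancel_left _ hp.pos,
          Nat.add_sub_cancel]
      calc ∑ j ∈ range (p * M), ((if p ∣ j + 1 then μ ((j + 1) / p - 1) else 0)
            + (p : ℤ) ^ (a + 1) * e j) * chi (j + 1) k ^ r
          = ∑ j ∈ range (p * M), (if p ∣ j + 1 then μ ((j + 1) / p - 1) else 0)
              * chi (j + 1) k ^ r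
            + (p : ℤ) ^ (a + 1) * ∑ j ∈ range (p * M), e j * chi (j + 1) k ^ r := by
            rw [Finset.mul_sum, ← Finset.sum_add_distrib]
            refine Finset.sum_congr rfl fun j _ => ?_
            ring
        _ = 1 := by rw [h3, h2, ← h1]; ring
    · intro j hj
      rw [mul_add]
      refine dvd_add ?_ ?_
      · by_cases hd' : p ∣ j + 1
        · rw [if_pos hd']
          obtain ⟨l, hl⟩ := hd'
          have hl0 : 1 ≤ l := by
            rcases Nat.eq_zero_or_pos l with h | h
            · subst h; simp at hl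
            · exact h
          rw [hl, Nat.mul_div_cancel_left _ hp.pos]
          have hlM : l - 1 < M := by
            have : p * l ≤ p * M := by omega
            have := Nat.le_of_mul_le_mul_left this hp.pos
            omega
          have h1 := hμ2 (l - 1) hlM
          have h2 : ((j : ℤ) + 1) = p * ((((l - 1 : ℕ)) : ℤ) + 1) := by
            have h3 : ((j : ℤ) + 1) = p * l := by exact_mod_cast hl
            rw [h3]
            push_cast [Nat.cast_sub hl0]
            ring
          rw [h2, pow_succ', mul_assoc]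
          exact mul_dvd_mul_left _ h1
        · rw [if_neg hd', mul_zero]
          exact dvd_zero _
      · exact Dvd.dvd.mul_left (Dvd.intro _ rfl) _

end Pool.Agent.Q33.BinSym
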