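import Pool.Agent.Q33.QPhi.EightK

/-! The polynomials `F_n(q)` of `MP_8a5308_nt` and their values at roots of unity. -/

namespace Pool.Agent.Q33.EightF

open Finset Polynomial

/-- Gaussian binomial coefficients (`q`-Pascal rule), in the variable `x` -/
def gauss {R : Type*} [CommRing R] (x : R) : ℕ → ℕ → R
  | _, 0 => 1
  | 0, _ + 1 => 0
  | n + 1, k + 1 => gauss x n k + x ^ (k + 1) * gauss x n (k + 1)

/-- `(a;x)_m = ∏_{j<m} (1 - a x^j)` -/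
def qf {R : Type*} [CommRing R] (a x : R) (m : ℕ) : R := ∏ j ∈ range m, (1 - a * x ^ j)

/-- `R_{n,k}`: `(-q;q)_n/(-q;q)_k`, `(-q;q)_{2n}/(-q;q)_{2k}` and
`(q^2;q^2)_k (q^6;q^6)_n/((q^2;q^2)_n (q^6;q^6)_k)` written as products over `k < i ≤ n` -/
def Rnk {R : Type*} [CommRing R] (x : R) (n k : ℕ) : R :=
  (∏ j ∈ Ico k n, (1 + x ^ (j + 1))) ^ 4 * (∏ j ∈ Ico (2 * k) (2 * n), (1 + x ^ (j + 1))) ^ 2 *
    (∏ j ∈ Ico k n, (1 + x ^ (2 * (j + 1)) + x ^ (4 * (j + 1)))) ^ 2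

/-- `F_n(q) ∈ ℤ[q]` -/
noncomputable def F (n : ℕ) : ℤ[X] :=
  ∑ k ∈ range (n + 1), (∑ i ∈ range (8 * k + 1), X ^ i) * X ^ (2 * k ^ 2) * gauss X (4 * k) (2 * k) *
    gauss X (2 * k) k ^ 2 * Rnk X n k

theorem gauss_eq {R : Type*} [CommRing R] (x : R) : ∀ n k : ℕ, gauss x n k = Q33.QPhi.gb x n k := by
  intro n
  induction n with
  | zero =>
    intro k
    rcases k with _ | k <;> rfl
  | succ n ih =>
    intro k
    rcases k with _ | k
    · rfl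
    · rw [gauss, Q33.QPhi.gb, ih, ih]

/-- the Gaussian binomials satisfy `[m, j] (q;q)_j (q;q)_{m-j} = (q;q)_m` -/
theorem gauss_formula {R : Type*} [CommRing R] (x : R) (a b : ℕ) :
    gauss x (a + b) a * (qf x x a * qf x x b) = qf x x (a + b) := by
  rw [gauss_eq]
  exact Q33.QPhi.gb_mul x (a + b) a b rfl

/-- the product form of `R_{n,k}` agrees with the quotient of `q`-shifted factorials -/
theorem Rnk_formula {R : Type*} [CommRing R] (x : R) {n k : ℕ} (h : k ≤ n) :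
    Rnk x n k * (qf (-x) x k ^ 4 * qf (-x) x (2 * k) ^ 2 * (qf (x ^ 2) (x ^ 2) n * qf (x ^ 6) (x ^ 6) k) ^ 2)
      = qf (-x) x n ^ 4 * qf (-x) x (2 * n) ^ 2 * (qf (x ^ 2) (x ^ 2) k * qf (x ^ 6) (x ^ 6) n) ^ 2 := by
  have h1 : ∀ m : ℕ, qf (-x) x m = ∏ j ∈ range m, (1 + x ^ (j + 1)) := by
    intro m
    unfold qf
    refine prod_congr rfl fun j _ => ?_
    ring
  have h2 : ∀ {a b : ℕ}, a ≤ b → (∏ j ∈ Ico a b, (1 + x ^ (j + 1))) * qf (-x) x a = qf (-x) x b := by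
    intro a b hab
    rw [h1, h1, range_eq_Ico, range_eq_Ico, mul_comm, prod_Ico_consecutive _ (Nat.zero_le a) hab]
  have h3 : (∏ j ∈ Ico k n, (1 + x ^ (2 * (j + 1)) + x ^ (4 * (j + 1)))) * (qf (x ^ 2) (x ^ 2) n * qf (x ^ 6) (x ^ 6) k)
      = qf (x ^ 2) (x ^ 2) k * qf (x ^ 6) (x ^ 6) n := by
    unfold qf
    rw [range_eq_Ico, range_eq_Ico, ← prod_Ico_consecutive (fun j => 1 - x ^ 2 * (x ^ 2) ^ j) (Nat.zero_le k) h,
      ← prod_Ico_consecutive (fun j => 1 - x ^ 6 * (x ^ 6) ^ j) (Nat.zero_le k) h]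
    have e : ∏ j ∈ Ico k n, (1 - x ^ 6 * (x ^ 6) ^ j)
        = (∏ j ∈ Ico k n, (1 + x ^ (2 * (j + 1)) + x ^ (4 * (j + 1)))) * ∏ j ∈ Ico k n, (1 - x ^ 2 * (x ^ 2) ^ j) := by
      rw [← prod_mul_distrib]
      refine prod_congr rfl fun j _ => ?_
      have a1 : x ^ 6 * (x ^ 6) ^ j = (x ^ (2 * (j + 1))) ^ 3 := by
        rw [← pow_mul, ← pow_mul, ← pow_add]
        congr 1
        ring
      have a2 : x ^ 2 * (x ^ 2) ^ j = x ^ (2 * (j + 1)) := by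
        rw [← pow_mul, ← pow_add]
        congr 1
        ring
      have a3 : x ^ (4 * (j + 1)) = (x ^ (2 * (j + 1))) ^ 2 := by
        rw [← pow_mul]
        congr 1
        ring
      rw [a1, a2, a3]
      ring
    rw [e]
    ring
  rw [← h2 h, ← h2 (Nat.mul_le_mul_left 2 h), ← h3, Rnk]
  ring

theorem F_dvd (n d : ℕ) (hd : 2 ≤ d) (hr : d ≤ 3 * (n % d)) : cyclotomic d ℤ ∣ F n := by
  have hne : d ≠ 0 := by omega
  obtain ⟨z, hz⟩ : ∃ z : ℂ, IsPrimitiveRoot z d := ⟨_, Complex.isPrimitiveRoot_exp d hne⟩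
  rw [cyclotomic_eq_minpoly hz (by omega)]
  apply minpoly.isIntegrallyClosed_dvd (hz.isIntegral (by omega))
  have h := Q33.QPhi.sum_zero (by omega) hz n hr
  rw [← h, F, map_sum]
  refine sum_congr rfl fun k _ => ?_
  rw [gauss_eq, gauss_eq, Q33.QPhi.fF]
  have hg : ∀ m j : ℕ, aeval z (Q33.QPhi.gb (X : ℤ[X]) m j) = Q33.QPhi.gb z m j := by
    intro m j
    have h1 := Q33.QPhi.map_gb (aeval z : ℤ[X] →ₐ[ℤ] ℂ).toRingHom (X : ℤ[X]) m j
    simpa using h1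
  have hR : aeval z (Rnk (X : ℤ[X]) n k) = Q33.QPhi.RR z n k := by
    unfold Rnk Q33.QPhi.RR
    simp only [map_mul, map_pow, map_prod, map_add, map_one, aeval_X]
  have hs : aeval z (∑ i ∈ range (8 * k + 1), (X : ℤ[X]) ^ i) = ∑ i ∈ range (8 * k + 1), z ^ i := by
    rw [map_sum]
    refine sum_congr rfl fun i _ => ?_
    rw [map_pow, aeval_X]
  rw [map_mul, map_mul, map_mul, map_mul, map_pow, map_pow, hg, hg, aeval_X, hR, hs]

end Pool.Agent.Q33.EightF
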