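import Mathlib

set_option autoImplicit false

namespace Pool.Agent.Q33.ErdosPow

open Real

/-- the series of `log ((c+1/2)/(c-1/2))` -/
lemma hs {c : ℝ} (hc : 1 ≤ c) :
    HasSum (fun k : ℕ => (2 : ℝ) * (1 / (2 * k + 1)) * (1 / (2 * c)) ^ (2 * k + 1))
      (Real.log ((c + 1 / 2) / (c - 1 / 2))) := by
  have h := Real.hasSum_log_one_add_inv (a := c - 1 / 2) (by linarith)
  have e1 : 2 * (c - 1 / 2) + 1 = 2 * c := by ring
  have hne : c - 1 / 2 ≠ 0 := by linarith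
  have e2 : 1 + (c - 1 / 2)⁻¹ = (c + 1 / 2) / (c - 1 / 2) := by
    rw [eq_div_iff hne, add_mul, inv_mul_cancel₀ hne]
    ring
  rw [e1, e2] at h
  exact h

lemma lam_lo {c : ℝ} (hc : 1 ≤ c) :
    1 / c + 1 / (12 * c ^ 3) ≤ Real.log ((c + 1 / 2) / (c - 1 / 2)) := by
  have h := hs hc
  have h2 := sum_le_hasSum (Finset.range 2) (fun k _ => by positivity) h
  refine le_trans (le_of_eq ?_) h2
  have hne : c ≠ 0 := by linarith
  rw [Finset.sum_range_succ, Finset.sum_range_one]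
  push_cast
  field_simp
  ring

lemma lam_up {c : ℝ} (hc : 1 ≤ c) :
    Real.log ((c + 1 / 2) / (c - 1 / 2)) ≤ 1 / c + 1 / (12 * c ^ 3) + 1 / (60 * c ^ 5) := by
  have h := hs hc
  have hne : c ≠ 0 := by linarith
  set z : ℝ := 1 / (2 * c) with hz
  have hz0 : 0 < z := by positivity
  have hz1 : z ≤ 1 / 2 := by
    rw [hz]
    rw [div_le_div_iff₀ (by linarith) (by norm_num)]
    linarith
  -- compare with geometric series
  have hg : HasSum (fun k : ℕ => (2 / 5 : ℝ) * z ^ 5 * (z ^ 2) ^ k) ((2 / 5) * z ^ 5 * (1 - z ^ 2)⁻¹) :=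
    (hasSum_geometric_of_lt_one (by positivity) (by nlinarith)).mul_left _
  have hsplit := (hasSum_nat_add_iff' (f := fun k : ℕ => (2 : ℝ) * (1 / (2 * k + 1)) * z ^ (2 * k + 1)) 2).mpr h
  have hle := hasSum_le (fun k => ?_) hsplit hg
  · rw [Finset.sum_range_succ, Finset.sum_range_one] at hle
    have h3 : (1 - z ^ 2)⁻¹ ≤ 4 / 3 := by
      rw [inv_le_comm₀ (by nlinarith) (by norm_num)]
      nlinarith
    have h4 : (2 / 5 : ℝ) * z ^ 5 * (1 - z ^ 2)⁻¹ ≤ (2 / 5) * z ^ 5 * (4 / 3) :=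
      mul_le_mul_of_nonneg_left h3 (by positivity)
    have h5 : (2 / 5 : ℝ) * z ^ 5 * (4 / 3) = 1 / (60 * c ^ 5) := by
      rw [hz]
      field_simp
      ring
    have h6 : (2 : ℝ) * (1 / (2 * ((0 : ℕ) : ℝ) + 1)) * z ^ (2 * 0 + 1) +
        2 * (1 / (2 * ((1 : ℕ) : ℝ) + 1)) * z ^ (2 * 1 + 1) = 1 / c + 1 / (12 * c ^ 3) := by
      rw [hz]
      push_cast
      field_simp
      ring
    rw [h6] at hle
    linarith
  · have e : (2 : ℝ) * (1 / (2 * ((k + 2 : ℕ) : ℝ) + 1)) * z ^ (2 * (k + 2) + 1)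
        = (2 * (1 / (2 * ((k + 2 : ℕ) : ℝ) + 1))) * (z ^ 5 * (z ^ 2) ^ k) := by
      rw [← pow_mul]
      ring
    rw [e]
    have e2 : (2 / 5 : ℝ) * z ^ 5 * (z ^ 2) ^ k = (2 / 5) * (z ^ 5 * (z ^ 2) ^ k) := by ring
    rw [e2]
    apply mul_le_mul_of_nonneg_right _ (by positivity)
    rw [mul_one_div, div_le_div_iff₀ (by positivity) (by norm_num)]
    push_cast
    have : (0 : ℝ) ≤ k := Nat.cast_nonneg k
    linarith

lemma hd1 (x : ℝ) : HasDerivAt (fun x : ℝ => Real.exp (-x)) (-(Real.exp (-x))) x := by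
  have := (hasDerivAt_neg' x).exp
  simpa using this

lemma hd2 (x : ℝ) : HasDerivAt (fun x : ℝ => 1 - x + x ^ 2 / 2) (-1 + x) x := by
  have := ((hasDerivAt_id' x).const_sub 1).fun_add ((hasDerivAt_pow 2 x).div_const 2)
  refine this.congr_deriv ?_
  norm_num

lemma hd3 (x : ℝ) : HasDerivAt (fun x : ℝ => 1 - x + x ^ 2 / 2 - x ^ 3 / 6) (-1 + x - x ^ 2 / 2) x := by
  have := (hd2 x).fun_sub ((hasDerivAt_pow 3 x).div_const 6)
  refine this.congr_deriv ?_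
  norm_num
  ring

lemma exp_up {z : ℝ} (hz : 0 ≤ z) : Real.exp (-z) ≤ 1 - z + z ^ 2 / 2 := by
  have hder2 : ∀ x : ℝ, HasDerivAt (fun x => (1 - x + x ^ 2 / 2) - Real.exp (-x))
      ((-1 + x) - (-Real.exp (-x))) x := fun x => (hd2 x).fun_sub (hd1 x)
  have mono : MonotoneOn (fun x => (1 - x + x ^ 2 / 2) - Real.exp (-x)) (Set.Ici 0) := by
    apply monotoneOn_of_deriv_nonneg (convex_Ici 0)
    · exact (continuous_iff_continuousAt.mpr (fun x => (hder2 x).continuousAt)).continuousOn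
    · intro x _
      exact (hder2 x).differentiableAt.differentiableWithinAt
    · intro x _
      rw [(hder2 x).deriv]
      have := Real.add_one_le_exp (-x)
      linarith
  have := mono (Set.mem_Ici.mpr le_rfl) (Set.mem_Ici.mpr hz) hz
  simp at this
  linarith

/-- lower bound for exp(-z), z ≥ 0 -/
lemma exp_lo {z : ℝ} (hz : 0 ≤ z) : 1 - z + z ^ 2 / 2 - z ^ 3 / 6 ≤ Real.exp (-z) := by
  have hder : ∀ x : ℝ, HasDerivAt (fun x => Real.exp (-x) - (1 - x + x ^ 2 / 2 - x ^ 3 / 6))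
      (-(Real.exp (-x)) - (-1 + x - x ^ 2 / 2)) x := fun x => (hd1 x).fun_sub (hd3 x)
  have mono : MonotoneOn (fun x => Real.exp (-x) - (1 - x + x ^ 2 / 2 - x ^ 3 / 6)) (Set.Ici 0) := by
    apply monotoneOn_of_deriv_nonneg (convex_Ici 0)
    · exact (continuous_iff_continuousAt.mpr (fun x => (hder x).continuousAt)).continuousOn
    · intro x _
      exact (hder x).differentiableAt.differentiableWithinAt
    · intro x hx
      rw [(hder x).deriv]
      have hx' : 0 ≤ x := by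
        have := interior_subset hx
        exact this
      have := exp_up hx'
      linarith
  have := mono (Set.mem_Ici.mpr le_rfl) (Set.mem_Ici.mpr hz) hz
  simp at this
  linarith

/-- upper bound for the quotient of logarithms: with N = 1/h, c = N - t, τ = t h ≤ 1/2 -/
lemma ratio_up {N t : ℝ} (hN : 100 ≤ N) (ht0 : 0 ≤ t) (ht : 2 * t ≤ N) :
    Real.log ((N - t + 1 / 2) / (N - t - 1 / 2)) ≤
      (1 + (t * (1 / N) + (t * (1 / N)) ^ 2 + (1 / N) ^ 3 * (2 * t ^ 3 + t + 1 / 100))) *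
        Real.log ((N + 1 / 2) / (N - 1 / 2)) := by
  have hNp : 0 < N := by linarith
  set h : ℝ := 1 / N with hh
  have hh0 : 0 < h := by positivity
  have hh1 : h ≤ 1 / 100 := by
    rw [hh]; exact one_div_le_one_div_of_le (by norm_num) hN
  have hNh : N * h = 1 := by rw [hh]; field_simp
  set c : ℝ := N - t with hc
  have hcN : N ≤ 2 * c := by linarith
  have hc1 : 1 ≤ c := by linarith
  have hcp : 0 < c := by linarith
  refine (lam_up hc1).trans ?_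
  set τ : ℝ := t * h with hτ
  have hτ0 : 0 ≤ τ := by positivity
  have hτ1 : τ ≤ 1 / 2 := by
    have : 2 * t * h ≤ N * h := mul_le_mul_of_nonneg_right ht hh0.le
    rw [hNh] at this
    linarith
  have hlo := lam_lo (c := N) (by linarith)
  have hZ : 0 ≤ 1 + (τ + τ ^ 2 + h ^ 3 * (2 * t ^ 3 + t + 1 / 100)) := by positivity
  refine le_trans ?_ (mul_le_mul_of_nonneg_left hlo hZ)
  -- now everything in terms of h, τ
  have e1 : 1 / N + 1 / (12 * N ^ 3) = h * (1 + h ^ 2 / 12) := by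
    rw [hh]; field_simp
  have hch : c * h = 1 - τ := by
    rw [hc, hτ]; linear_combination hNh
  set s : ℝ := 1 - τ with hs
  have hsp : 1 / 2 ≤ s := by linarith
  have hs0 : 0 < s := by linarith
  have ec : c = s / h := by field_simp; linarith
  have e2 : 1 / c + 1 / (12 * c ^ 3) + 1 / (60 * c ^ 5) =
      h * (s⁻¹ * (1 + h ^ 2 / 12 * (s⁻¹) ^ 2 + h ^ 4 / 60 * (s⁻¹) ^ 4)) := by
    rw [ec]; field_simp
  rw [e1, e2]
  have e3 : (1 + (τ + τ ^ 2 + h ^ 3 * (2 * t ^ 3 + t + 1 / 100))) * (h * (1 + h ^ 2 / 12)) =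
      h * ((1 + (τ + τ ^ 2 + 2 * τ ^ 3 + h ^ 2 * τ + h ^ 3 / 100)) * (1 + h ^ 2 / 12)) := by
    rw [hτ]; ring
  rw [e3]
  apply mul_le_mul_of_nonneg_left _ hh0.le
  rw [inv_mul_le_iff₀ hs0]
  have hsi : s⁻¹ ^ 2 ≤ 1 + 6 * τ := by
    rw [inv_pow, inv_le_iff_one_le_mul₀ (by positivity)]
    rw [hs]
    nlinarith [mul_nonneg hτ0 (by linarith : (0 : ℝ) ≤ 1 / 2 - τ), mul_nonneg (mul_nonneg hτ0 hτ0) (by linarith : (0 : ℝ) ≤ 1 / 2 - τ)]
  have hsi4 : s⁻¹ ^ 4 ≤ 16 := by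
    have h1 : s⁻¹ ≤ 2 := by
      rw [inv_le_comm₀ hs0 (by norm_num)]; linarith
    have h0 : 0 ≤ s⁻¹ := by positivity
    calc s⁻¹ ^ 4 ≤ 2 ^ 4 := pow_le_pow_left₀ h0 h1 4
      _ = 16 := by norm_num
  have h1 : 1 + h ^ 2 / 12 * s⁻¹ ^ 2 + h ^ 4 / 60 * s⁻¹ ^ 4 ≤
      1 + h ^ 2 / 12 * (1 + 6 * τ) + h ^ 4 / 60 * 16 := by
    have a := mul_le_mul_of_nonneg_left hsi (by positivity : 0 ≤ h ^ 2 / 12)
    have b := mul_le_mul_of_nonneg_left hsi4 (by positivity : 0 ≤ h ^ 4 / 60)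
    linarith
  refine h1.trans ?_
  have h2 : 1 + (h ^ 2 * τ / 2 + h ^ 3 / 200) ≤
      s * (1 + (τ + τ ^ 2 + 2 * τ ^ 3 + h ^ 2 * τ + h ^ 3 / 100)) := by
    rw [hs]
    have a1 : 0 ≤ τ ^ 3 * (1 - 2 * τ) := mul_nonneg (by positivity) (by linarith)
    have a2 : 0 ≤ h ^ 2 * τ * (1 / 2 - τ) := mul_nonneg (by positivity) (by linarith)
    have a3 : 0 ≤ h ^ 3 * (1 / 2 - τ) := mul_nonneg (by positivity) (by linarith)
    nlinarith
  have h3 : (1 + (h ^ 2 * τ / 2 + h ^ 3 / 200)) * (1 + h ^ 2 / 12) ≤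
      s * (1 + (τ + τ ^ 2 + 2 * τ ^ 3 + h ^ 2 * τ + h ^ 3 / 100)) * (1 + h ^ 2 / 12) :=
    mul_le_mul_of_nonneg_right h2 (by positivity)
  rw [← mul_assoc s]
  refine le_trans ?_ h3
  have h4 : h ^ 4 / 60 * 16 ≤ h ^ 3 / 200 := by
    have : h ^ 4 = h ^ 3 * h := by ring
    rw [this]
    nlinarith [pow_pos hh0 3]
  have h5 : 0 ≤ (h ^ 2 * τ / 2 + h ^ 3 / 200) * (h ^ 2 / 12) := by positivity
  nlinarith

end Pool.Agent.Q33.ErdosPow
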