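import Pool.Agent.Q33.ErdosPowA

set_option autoImplicit false

namespace Pool.Agent.Q33.ErdosPow

open Real

/-- the sub-solution -/
noncomputable def Q (L h t : ℝ) : ℝ :=
  2 - 2 * L * (t + 1) * h + h ^ 2 * ((3 * L ^ 2 - 2 * L) * t ^ 2 + (10 * L ^ 2 - 4 * L) * t + (13 * L ^ 2 - 6 * L))
    - h ^ 3 * (27 / 10 * t ^ 3 + 9 * t ^ 2 + 31 * t + 45)

/-- polynomial lower bound for twice the ratio -/
noncomputable def K (L h t : ℝ) : ℝ :=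
  1 - L * (t * h) + (L ^ 2 / 2 - L) * (t * h) ^ 2 - h ^ 3 * (14 / 10 * t ^ 3 + 7 / 10 * t + 1 / 100)

lemma L_bounds : (0.693147 : ℝ) < Real.log 2 ∧ Real.log 2 < (0.693148 : ℝ) := by
  have h1 := Real.log_two_gt_d9
  have h2 := Real.log_two_lt_d9
  constructor <;> linarith

lemma L_pows {L : ℝ} (h1 : 0.693147 < L) (h2 : L < 0.693148) :
    0.480452 < L ^ 2 ∧ L ^ 2 < 0.480455 ∧ 0.333023 < L ^ 3 ∧ L ^ 3 < 0.333027 ∧
      0.230834 < L ^ 4 ∧ L ^ 4 < 0.230838 := by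
  have a1 : 0.480452 < L ^ 2 := by nlinarith
  have a2 : L ^ 2 < 0.480455 := by nlinarith
  have e3 : L ^ 3 = L ^ 2 * L := by ring
  have e4 : L ^ 4 = L ^ 2 * L ^ 2 := by ring
  refine ⟨a1, a2, ?_, ?_, ?_, ?_⟩
  · rw [e3]; nlinarith
  · rw [e3]; nlinarith
  · rw [e4]; nlinarith
  · rw [e4]; nlinarith

lemma step_poly {L h t : ℝ} (h1 : 0.693147 < L) (h2 : L < 0.693148) (hh : 0 < h) (hh1 : h ≤ 1 / 100)
    (ht : 0 ≤ t) : Q L h t ≤ 1 + (1 / 2) * K L h t * Q L h (t + 1) := by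
  obtain ⟨p2, q2, p3, q3, p4, q4⟩ := L_pows h1 h2
  have key : 1 + (1 / 2) * K L h t * Q L h (t + 1) - Q L h t =
      h ^ 3 * (57/50 + (7/4 + 6 * L^2 - 13 * L^3) * t + (9/20 + 6 * L^2 - 9 * L^3) * t^2 +
        (-1/20 + 2 * L^2 - 2 * L^3) * t^3) +
      h ^ 4 * (1/50 * L + 2263/50 * L * t + (117/4 * L + 6 * L^2 - 16 * L^3 + 13/2 * L^4) * t^2 +
        (227/20 * L + 4 * L^2 - 10 * L^3 + 4 * L^4) * t^3 + (11/4 * L + L^2 - 2 * L^3 + 3/4 * L^4) * t^4) +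
      h ^ 5 * ((3/50 * L - 13/100 * L^2) + (106/25 * L - 459/50 * L^2) * t +
        (2333/50 * L - 1377/50 * L^2) * t^2 + (753/20 * L - 1341/40 * L^2) * t^3 +
        (283/20 * L - 619/40 * L^2) * t^4 + (11/4 * L - 111/40 * L^2) * t^5) +
      h ^ 6 * (877/2000 + 61961/2000 * t + 40141/2000 * t^2 + 134777/2000 * t^3 + 8183/200 * t^4 +
        1197/100 * t^5 + 189/100 * t^6) := by
    unfold Q K
    ring
  have b3 : 0 ≤ h ^ 3 * (57/50 + (7/4 + 6 * L^2 - 13 * L^3) * t + (9/20 + 6 * L^2 - 9 * L^3) * t^2 +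
        (-1/20 + 2 * L^2 - 2 * L^3) * t^3) := by
    have c1 : 0 ≤ 7/4 + 6 * L^2 - 13 * L^3 := by linarith
    have c2 : 0 ≤ 9/20 + 6 * L^2 - 9 * L^3 := by linarith
    have c3 : 0 ≤ -1/20 + 2 * L^2 - 2 * L^3 := by linarith
    positivity
  have hL : 0 < L := by linarith
  have b4 : 0 ≤ h ^ 4 * (1/50 * L + 2263/50 * L * t + (117/4 * L + 6 * L^2 - 16 * L^3 + 13/2 * L^4) * t^2 +
        (227/20 * L + 4 * L^2 - 10 * L^3 + 4 * L^4) * t^3 + (11/4 * L + L^2 - 2 * L^3 + 3/4 * L^4) * t^4)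
        + h ^ 5 * ((3/50 * L - 13/100 * L^2) + (106/25 * L - 459/50 * L^2) * t) := by
    have c1 : 0 ≤ 117/4 * L + 6 * L^2 - 16 * L^3 + 13/2 * L^4 := by linarith
    have c2 : 0 ≤ 227/20 * L + 4 * L^2 - 10 * L^3 + 4 * L^4 := by linarith
    have c3 : 0 ≤ 11/4 * L + L^2 - 2 * L^3 + 3/4 * L^4 := by linarith
    have e : h ^ 4 * (1/50 * L + 2263/50 * L * t + (117/4 * L + 6 * L^2 - 16 * L^3 + 13/2 * L^4) * t^2 +
        (227/20 * L + 4 * L^2 - 10 * L^3 + 4 * L^4) * t^3 + (11/4 * L + L^2 - 2 * L^3 + 3/4 * L^4) * t^4)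
        + h ^ 5 * ((3/50 * L - 13/100 * L^2) + (106/25 * L - 459/50 * L^2) * t) =
        h ^ 4 * ((1/50 * L + h * (3/50 * L - 13/100 * L^2)) +
          (2263/50 * L + h * (106/25 * L - 459/50 * L^2)) * t +
          (117/4 * L + 6 * L^2 - 16 * L^3 + 13/2 * L^4) * t^2 +
        (227/20 * L + 4 * L^2 - 10 * L^3 + 4 * L^4) * t^3 + (11/4 * L + L^2 - 2 * L^3 + 3/4 * L^4) * t^4) := by
      ring
    rw [e]
    have d0 : 0 ≤ 1/50 * L + h * (3/50 * L - 13/100 * L^2) := by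
      have : -(1/40) ≤ 3/50 * L - 13/100 * L^2 := by linarith
      nlinarith
    have d1 : 0 ≤ 2263/50 * L + h * (106/25 * L - 459/50 * L^2) := by
      have : -2 ≤ 106/25 * L - 459/50 * L^2 := by linarith
      nlinarith
    positivity
  have b5 : 0 ≤ h ^ 5 * ((2333/50 * L - 1377/50 * L^2) * t^2 + (753/20 * L - 1341/40 * L^2) * t^3 +
        (283/20 * L - 619/40 * L^2) * t^4 + (11/4 * L - 111/40 * L^2) * t^5) := by
    have c1 : 0 ≤ 2333/50 * L - 1377/50 * L^2 := by linarith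
    have c2 : 0 ≤ 753/20 * L - 1341/40 * L^2 := by linarith
    have c3 : 0 ≤ 283/20 * L - 619/40 * L^2 := by linarith
    have c4 : 0 ≤ 11/4 * L - 111/40 * L^2 := by linarith
    positivity
  have b6 : 0 ≤ h ^ 6 * (877/2000 + 61961/2000 * t + 40141/2000 * t^2 + 134777/2000 * t^3 + 8183/200 * t^4 +
        1197/100 * t^5 + 189/100 * t^6) := by positivity
  nlinarith [key, b3, b4, b5, b6]

/-- lower bound for the exponential -/
lemma exp_K {L h t Z : ℝ} (h1 : 0.693147 < L) (h2 : L < 0.693148) (hh : 0 < h) (hh1 : h ≤ 1 / 100)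
    (ht : 0 ≤ t) (hτ : t * h ≤ 1 / 2)
    (hZ : Z = t * h + (t * h) ^ 2 + h ^ 3 * (2 * t ^ 3 + t + 1 / 100)) :
    K L h t ≤ Real.exp (-(L * Z)) := by
  obtain ⟨p2, q2, p3, q3, p4, q4⟩ := L_pows h1 h2
  have hL : 0 < L := by linarith
  have hZ0 : 0 ≤ Z := by rw [hZ]; positivity
  refine le_trans ?_ (exp_lo (mul_nonneg hL.le hZ0))
  set τ := t * h with hτd
  have hτ0 : 0 ≤ τ := by positivity
  have hZe : Z = τ + τ ^ 2 + 2 * τ ^ 3 + h ^ 2 * τ + h ^ 3 / 100 := by rw [hZ, hτd]; ring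
  -- Z ^ 2 lower bound
  have hZ2 : τ ^ 2 + 2 * τ ^ 3 ≤ Z ^ 2 := by
    have : τ + τ ^ 2 ≤ Z := by rw [hZe]; nlinarith [pow_pos hh 3, pow_pos hh 2, mul_nonneg (pow_pos hh 2).le hτ0, pow_nonneg hτ0 3]
    have h3 : (τ + τ ^ 2) ^ 2 ≤ Z ^ 2 := pow_le_pow_left₀ (by positivity) this 2
    nlinarith [pow_nonneg hτ0 4]
  -- Z ^ 3 upper bound
  have hZ3 : Z ^ 3 ≤ 41 / 5 * τ ^ 3 + h ^ 3 / 25 := by
    have hu : Z ≤ (2 + 1 / 10000) * τ + h ^ 3 / 100 := by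
      rw [hZe]
      have a1 : τ ^ 2 + 2 * τ ^ 3 ≤ τ := by
        nlinarith [mul_nonneg hτ0 (by linarith : (0:ℝ) ≤ 1 / 2 - τ), mul_nonneg (mul_nonneg hτ0 hτ0) (by linarith : (0:ℝ) ≤ 1 / 2 - τ)]
      have a2 : h ^ 2 ≤ 1 / 10000 := by nlinarith
      nlinarith [mul_le_mul_of_nonneg_right a2 hτ0]
    have hu3 := pow_le_pow_left₀ hZ0 hu 3
    refine hu3.trans ?_
    set e := h ^ 3 / 100 with he
    have he0 : 0 ≤ e := by positivity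
    have he1 : e ≤ 1 / 10 ^ 8 := by
      have : h ^ 3 ≤ (1 / 100) ^ 3 := pow_le_pow_left₀ hh.le hh1 3
      rw [he]; norm_num at this ⊢; linarith
    have hp : ((2 + 1 / 10000) * τ + e) ^ 3 = (2 + 1 / 10000) ^ 3 * τ ^ 3 +
        e * (3 * (2 + 1 / 10000) ^ 2 * τ ^ 2 + 3 * (2 + 1 / 10000) * τ * e + e ^ 2) := by ring
    rw [hp]
    have hq : 3 * (2 + 1 / 10000) ^ 2 * τ ^ 2 + 3 * (2 + 1 / 10000) * τ * e + e ^ 2 ≤ 4 := by
      nlinarith [mul_nonneg hτ0 he0]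
    have hq2 := mul_le_mul_of_nonneg_left hq he0
    have he4 : e * 4 = h ^ 3 / 25 := by rw [he]; ring
    have ht3 : 0 ≤ τ ^ 3 := pow_nonneg hτ0 3
    have : (2 + 1 / 10000 : ℝ) ^ 3 ≤ 41 / 5 := by norm_num
    have := mul_le_mul_of_nonneg_right this ht3
    linarith
  unfold K
  have e1 : 1 - L * Z + (L * Z) ^ 2 / 2 - (L * Z) ^ 3 / 6 = 1 - L * Z + L ^ 2 / 2 * Z ^ 2 - L ^ 3 / 6 * Z ^ 3 := by ring
  rw [e1]
  have c1 := mul_le_mul_of_nonneg_left hZ2 (by positivity : 0 ≤ L ^ 2 / 2)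
  have c2 := mul_le_mul_of_nonneg_left hZ3 (by positivity : 0 ≤ L ^ 3 / 6)
  have e2 : h ^ 3 * (14 / 10 * t ^ 3 + 7 / 10 * t + 1 / 100) = 14 / 10 * τ ^ 3 + 7 / 10 * (h ^ 2 * τ) + h ^ 3 / 100 := by
    rw [hτd]; ring
  rw [e2]
  have hZL : L * Z = L * τ + L * τ ^ 2 + 2 * L * τ ^ 3 + L * (h ^ 2 * τ) + L * (h ^ 3 / 100) := by rw [hZe]; ring
  rw [hZL]
  have d1 : 0 ≤ τ ^ 3 * (14 / 10 - 2 * L + L ^ 2 - 41 / 30 * L ^ 3) := by
    apply mul_nonneg (by positivity); linarith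
  have d2 : 0 ≤ (7 / 10 - L) * (h ^ 2 * τ) := mul_nonneg (by linarith) (by positivity)
  have d3 : 0 ≤ (1 - L - 4 * L ^ 3 / 6) * (h ^ 3 / 100) := mul_nonneg (by linarith) (by positivity)
  nlinarith [c1, c2, d1, d2, d3]

end Pool.Agent.Q33.ErdosPow
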