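import Pool.Agent.Q33.ErdosPowB

set_option autoImplicit false

namespace Pool.Agent.Q33.ErdosPow

open Real

/-- normalized power sum -/
noncomputable def R (n k : ℕ) : ℝ := (∑ i ∈ Finset.Icc 1 k, (i : ℝ) ^ n) / (k : ℝ) ^ n

lemma R_succ (n k : ℕ) (hk : 1 ≤ k) : R n (k + 1) = 1 + ((k : ℝ) / (k + 1)) ^ n * R n k := by
  unfold R
  have hk0 : (k : ℝ) ≠ 0 := by positivity
  have hk1 : ((k : ℝ) + 1) ≠ 0 := by positivity
  rw [Finset.sum_Icc_succ_top (by omega)]
  push_cast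
  rw [div_pow]
  field_simp
  ring

lemma R_ge_one (n k : ℕ) (hk : 1 ≤ k) : 1 ≤ R n k := by
  unfold R
  have hk0 : (0 : ℝ) < (k : ℝ) ^ n := by positivity
  rw [le_div_iff₀ hk0, one_mul]
  have : (k : ℝ) ^ n = ∑ i ∈ ({k} : Finset ℕ), (i : ℝ) ^ n := by simp
  rw [this]
  apply Finset.sum_le_sum_of_subset_of_nonneg
  · intro x hx
    simp at hx
    subst hx
    simp [hk]
  · intro i _ _
    positivity

lemma Q_eq (L h t s : ℝ) (hs : s = t * h) : Q L h t = 2 - 2 * L * s - 2 * L * h + ((3 * L ^ 2 - 2 * L) * s ^ 2 + (10 * L ^ 2 - 4 * L) * s * h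
          + (13 * L ^ 2 - 6 * L) * h ^ 2) - (27 / 10 * s ^ 3 + 9 * s ^ 2 * h + 31 * s * h ^ 2 + 45 * h ^ 3) := by
  unfold Q; rw [hs]; ring

lemma Q_base {L h τ : ℝ} (hL1 : 0.693147 < L) (hL2 : L < 0.693148) (hh0 : 0 < h) (hh2 : h ≤ 1 / 100)
    (hτ1 : 1 / 2 ≤ τ) (hτ2 : τ ≤ 0.504 + 0.0061) :
    2 - 2 * L * τ - 2 * L * h + ((3 * L ^ 2 - 2 * L) * τ ^ 2 + (10 * L ^ 2 - 4 * L) * τ * h
          + (13 * L ^ 2 - 6 * L) * h ^ 2) - (27 / 10 * τ ^ 3 + 9 * τ ^ 2 * h + 31 * τ * h ^ 2 + 45 * h ^ 3) ≤ 1 := by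
  obtain ⟨p2, q2, p3, q3, p4, q4⟩ := L_pows hL1 hL2
  have hτ0 : 0 < τ := by linarith
  have hL0 : 0 < L := by linarith
  have a1 : (3 * L ^ 2 - 2 * L) * τ ^ 2 ≤ 0.06 * τ ^ 2 := mul_le_mul_of_nonneg_right (by linarith) (by positivity)
  have a2 : τ ^ 2 ≤ (0.504 + 0.0061) ^ 2 := pow_le_pow_left₀ hτ0.le hτ2 2
  have a3 : (10 * L ^ 2 - 4 * L) * τ * h ≤ 2 * L * h := by
    apply mul_le_mul_of_nonneg_right _ hh0.le
    have h1 : (10 * L ^ 2 - 4 * L) * τ ≤ 2.1 * τ := mul_le_mul_of_nonneg_right (by linarith) hτ0.le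
    norm_num at h1 hτ2 hL1 ⊢
    linarith
  have a4 : (13 * L ^ 2 - 6 * L) * h ^ 2 ≤ 3 * (1/100) ^ 2 :=
    mul_le_mul (by linarith) (pow_le_pow_left₀ hh0.le hh2 2) (by positivity) (by norm_num)
  have a5 : (1 / 2 : ℝ) ^ 3 ≤ τ ^ 3 := pow_le_pow_left₀ (by norm_num) hτ1 3
  have a6 : 0 ≤ 9 * τ ^ 2 * h + 31 * τ * h ^ 2 + 45 * h ^ 3 := by positivity
  have a7 : 0.693147 * (1 / 2) ≤ L * τ := mul_le_mul hL1.le hτ1 (by norm_num) hL0.le
  norm_num at a1 a2 a4 a5 a7 ⊢
  linarith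

lemma Q_nonneg {L h s : ℝ} (hL1 : 0.693147 < L) (hL2 : L < 0.693148) (hh0 : 0 < h) (hh2 : h ≤ 1 / 100)
    (hs0 : 0 ≤ s) (hs1 : s ≤ 0.51) :
    0 ≤ 2 - 2 * L * s - 2 * L * h + ((3 * L ^ 2 - 2 * L) * s ^ 2 + (10 * L ^ 2 - 4 * L) * s * h
          + (13 * L ^ 2 - 6 * L) * h ^ 2) - (27 / 10 * s ^ 3 + 9 * s ^ 2 * h + 31 * s * h ^ 2 + 45 * h ^ 3) := by
  obtain ⟨p2, q2, p3, q3, p4, q4⟩ := L_pows hL1 hL2
  have hL0 : 0 < L := by linarith
  have a1 : 0 ≤ (3 * L ^ 2 - 2 * L) * s ^ 2 := mul_nonneg (by linarith) (by positivity)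
  have a2 : 0 ≤ (10 * L ^ 2 - 4 * L) * s * h := mul_nonneg (mul_nonneg (by linarith) hs0) hh0.le
  have a3 : 0 ≤ (13 * L ^ 2 - 6 * L) * h ^ 2 := mul_nonneg (by linarith) (by positivity)
  have a4 : s ^ 3 ≤ 0.51 ^ 3 := pow_le_pow_left₀ hs0 hs1 3
  have a5 : s ^ 2 ≤ 1 := by
    refine (pow_le_pow_left₀ hs0 hs1 2).trans ?_
    norm_num
  have b2 : s ^ 2 * h ≤ 1 * (1/100) := mul_le_mul a5 hh2 hh0.le (by norm_num)
  have hs2 : s ≤ 1 := by
    refine hs1.trans ?_
    norm_num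
  have b3 : s * h ^ 2 ≤ 1 * (1/100) ^ 2 := mul_le_mul hs2 (pow_le_pow_left₀ hh0.le hh2 2) (by positivity) (by norm_num)
  have b4 : h ^ 3 ≤ (1/100) ^ 3 := pow_le_pow_left₀ hh0.le hh2 3
  have a6 : L * s ≤ 0.693148 * 0.51 := mul_le_mul hL2.le hs1 hs0 (by norm_num)
  have a7 : L * h ≤ 1 * (1/100) := mul_le_mul (by linarith) hh2 hh0.le (by norm_num)
  norm_num at a4 b2 b3 b4 a6 a7 ⊢
  linarith

lemma fin_ineq {L h : ℝ} (hL1 : 0.693147 < L) (hL2 : L < 0.693148) (hh0 : 0 < h) (hh1 : h ≤ 1 / 249.5) :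
    2 * (1 - L * (h - h ^ 2) + (L * (h - h ^ 2)) ^ 2 / 2) < Q L h 0 := by
  obtain ⟨p2, q2, p3, q3, p4, q4⟩ := L_pows hL1 hL2
  have e : Q L h 0 - 2 * (1 - L * (h - h ^ 2) + (L * (h - h ^ 2)) ^ 2 / 2) =
      h ^ 2 * ((12 * L ^ 2 - 8 * L) - 45 * h + L ^ 2 * (2 * h - h ^ 2)) := by
    unfold Q; ring
  have hh2 : h ≤ 1 := by
    refine hh1.trans ?_
    norm_num
  have pos : 0 < h ^ 2 * ((12 * L ^ 2 - 8 * L) - 45 * h + L ^ 2 * (2 * h - h ^ 2)) := by
    apply mul_pos (by positivity)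
    have c1 : 0.2202 < 12 * L ^ 2 - 8 * L := by norm_num at p2 hL2 ⊢; linarith
    have c2 : 45 * h ≤ 45 * (1 / 249.5) := mul_le_mul_of_nonneg_left hh1 (by norm_num)
    have c3 : 0 ≤ L ^ 2 * (2 * h - h ^ 2) := mul_nonneg (by positivity) (by nlinarith)
    norm_num at c1 c2 ⊢
    linarith
  linarith

lemma log_up {N : ℝ} (hN : 100 ≤ N) :
    Real.log ((N + 1 + 1 / 2) / (N + 1 - 1 / 2)) ≤
      (1 - (1 / N) + (1 / N) ^ 2) * Real.log ((N + 1 / 2) / (N - 1 / 2)) := by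
  have hNp : 0 < N := by linarith
  set h : ℝ := 1 / N with hh
  have hh0 : 0 < h := by positivity
  have hh1 : h ≤ 1 / 100 := by
    rw [hh]; exact one_div_le_one_div_of_le (by norm_num) hN
  have u := lam_up (c := N + 1) (by linarith)
  have l := lam_lo (c := N) (by linarith)
  refine u.trans ?_
  have hp : 0 ≤ 1 - h + h ^ 2 := by nlinarith
  refine le_trans ?_ (mul_le_mul_of_nonneg_left l hp)
  have eN : N = 1 / h := by rw [hh]; field_simp
  have el : 1 / N + 1 / (12 * N ^ 3) = h * (1 + h ^ 2 / 12) := by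
    rw [eN]; field_simp
  rw [el]
  have s0 : (0 : ℝ) < 1 + h := by linarith
  have eu : 1 / (N + 1) + 1 / (12 * (N + 1) ^ 3) + 1 / (60 * (N + 1) ^ 5) =
      h * ((1 + h)⁻¹ * (1 + h ^ 2 / 12 * ((1 + h)⁻¹) ^ 2 + h ^ 4 / 60 * ((1 + h)⁻¹) ^ 4)) := by
    have : N + 1 = (1 + h) / h := by rw [eN]; field_simp
    rw [this]
    field_simp
  rw [eu]
  have : (1 - h + h ^ 2) * (h * (1 + h ^ 2 / 12)) = h * ((1 - h + h ^ 2) * (1 + h ^ 2 / 12)) := by ring
  rw [this]
  apply mul_le_mul_of_nonneg_left _ hh0.le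
  rw [inv_mul_le_iff₀ s0]
  have w1 : (1 + h)⁻¹ ≤ 1 := by
    rw [inv_le_one₀ s0]; linarith
  have w0 : 0 ≤ (1 + h)⁻¹ := by positivity
  have w2 : (1 + h)⁻¹ ^ 2 ≤ 1 - h := by
    rw [inv_pow, inv_le_iff_one_le_mul₀ (by positivity)]
    nlinarith [pow_pos hh0 2, pow_pos hh0 3]
  have w4 : (1 + h)⁻¹ ^ 4 ≤ 1 := pow_le_one₀ w0 w1
  have h1 : 1 + h ^ 2 / 12 * (1 + h)⁻¹ ^ 2 + h ^ 4 / 60 * (1 + h)⁻¹ ^ 4 ≤
      1 + h ^ 2 / 12 * (1 - h) + h ^ 4 / 60 * 1 := by
    have a := mul_le_mul_of_nonneg_left w2 (by positivity : 0 ≤ h ^ 2 / 12)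
    have b := mul_le_mul_of_nonneg_left w4 (by positivity : 0 ≤ h ^ 4 / 60)
    linarith
  refine h1.trans ?_
  nlinarith [pow_pos hh0 2, pow_pos hh0 3, pow_pos hh0 4, pow_pos hh0 5]

/-- the key lower bound for m ≥ 250 -/
lemma main_large (m n : ℕ) (hm : 250 ≤ m) (hadm : (1 - 1 / (m : ℝ)) ^ n > 1 / 2) :
    ((m : ℝ) + 1) ^ n < ∑ i ∈ Finset.Icc 1 m, (i : ℝ) ^ n := by
  obtain ⟨hL1, hL2⟩ := L_bounds
  set L : ℝ := Real.log 2 with hLd
  have hL0 : 0 < L := by linarith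
  have hmR : (250 : ℝ) ≤ m := by exact_mod_cast hm
  set N : ℝ := (m : ℝ) - 1 / 2 with hN
  have hN1 : 249.5 ≤ N := by rw [hN]; norm_num; linarith
  have hN2 : 249 ≤ N := by rw [hN]; linarith
  have hNp : 0 < N := by linarith
  set h : ℝ := 1 / N with hh
  have hh0 : 0 < h := by positivity
  have hh1 : h ≤ 1 / 249.5 := by
    rw [hh]; exact one_div_le_one_div_of_le (by norm_num) hN1
  have hh2 : h ≤ 1 / 100 := hh1.trans (by norm_num)
  have hh3 : h ≤ 0.0041 := hh1.trans (by norm_num)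
  have hNh : N * h = 1 := by rw [hh]; field_simp
  -- n * lam(m) < L
  set lam : ℝ := Real.log ((N + 1 / 2) / (N - 1 / 2)) with hlam
  have hlam0 : 0 < lam := by
    apply Real.log_pos
    rw [one_lt_div (by linarith)]
    linarith
  have hnl : (n : ℝ) * lam < L := by
    have h1 : (0 : ℝ) < 1 - 1 / (m : ℝ) := by
      have : 1 / (m : ℝ) ≤ 1 / 250 := one_div_le_one_div_of_le (by norm_num) hmR
      linarith
    have h2 := Real.log_lt_log (by norm_num : (0 : ℝ) < 1 / 2) hadm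
    rw [Real.log_pow] at h2
    have h3 : Real.log (1 / 2) = - L := by rw [one_div, Real.log_inv]
    have h4 : Real.log (1 - 1 / (m : ℝ)) = - lam := by
      rw [hlam, ← Real.log_inv]
      congr 1
      rw [hN, inv_div]
      have : (m : ℝ) ≠ 0 := by linarith
      have e : (m : ℝ) - 1 / 2 + 1 / 2 = m := by ring
      rw [e, eq_div_iff this, sub_mul, one_div, inv_mul_cancel₀ this]
      ring
    rw [h3, h4] at h2
    linarith
  -- downward induction
  have hind : ∀ k : ℕ, m / 2 ≤ k → k ≤ m → Q L h ((m : ℝ) - k) ≤ R n k := by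
    intro k hk
    induction k, hk using Nat.le_induction with
    | base =>
      intro _
      refine le_trans ?_ (R_ge_one n (m / 2) (by omega))
      have hb1 : 2 * ((m / 2 : ℕ) : ℝ) ≤ m := by
        have : 2 * (m / 2) ≤ m := by omega
        exact_mod_cast this
      have hb2 : (m : ℝ) ≤ 2 * ((m / 2 : ℕ) : ℝ) + 1 := by
        have : m ≤ 2 * (m / 2) + 1 := by omega
        exact_mod_cast this
      set t : ℝ := (m : ℝ) - ((m / 2 : ℕ) : ℝ) with ht
      have ht1 : N ≤ 2 * t := by rw [hN, ht]; linarith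
      have ht2 : 2 * t ≤ N + 3 / 2 := by rw [hN, ht]; linarith
      rw [Q_eq L h t (t * h) rfl]
      apply Q_base hL1 hL2 hh0 hh2
      · have := mul_le_mul_of_nonneg_right ht1 hh0.le
        rw [hNh] at this
        linarith
      · have := mul_le_mul_of_nonneg_right ht2 hh0.le
        rw [add_mul, hNh] at this
        norm_num at hh3 ⊢
        linarith
    | succ k hk ih =>
      intro hkm
      have ih' := ih (by omega)
      have hk1 : 1 ≤ k := by omega
      rw [R_succ n k hk1]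
      set t : ℝ := (m : ℝ) - ((k + 1 : ℕ) : ℝ) with ht
      have hkt : (m : ℝ) - k = t + 1 := by rw [ht]; push_cast; ring
      rw [hkt] at ih'
      have ht0 : 0 ≤ t := by
        rw [ht]
        have : ((k + 1 : ℕ) : ℝ) ≤ m := by exact_mod_cast hkm
        linarith
      have ht2 : 2 * t ≤ N := by
        have : (m : ℝ) ≤ 2 * (k : ℝ) + 1 := by
          have : m ≤ 2 * k + 1 := by omega
          exact_mod_cast this
        rw [ht, hN]
        push_cast
        linarith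
      have hrat := ratio_up (N := N) (t := t) (by linarith) ht0 ht2
      rw [← hh] at hrat
      set Z : ℝ := t * h + (t * h) ^ 2 + h ^ 3 * (2 * t ^ 3 + t + 1 / 100) with hZ
      have hτ : t * h ≤ 1 / 2 := by
        have := mul_le_mul_of_nonneg_right ht2 hh0.le
        rw [hNh] at this; linarith
      have hZ0 : 0 ≤ Z := by positivity
      have hK := exp_K (L := L) (h := h) (t := t) hL1 hL2 hh0 hh2 ht0 hτ hZ
      -- lower bound for the ratio
      have hρ : (1 / 2) * K L h t ≤ ((k : ℝ) / (k + 1)) ^ n := by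
        have hkR : (0 : ℝ) < k := by exact_mod_cast hk1
        have e1 : ((k : ℝ) / (k + 1)) ^ n = Real.exp (-(n * Real.log (((k : ℝ) + 1) / k))) := by
          rw [← Real.log_pow, ← Real.log_inv, Real.exp_log (by positivity), ← inv_pow, inv_div]
        have e2 : Real.log (((k : ℝ) + 1) / k) ≤ (1 + Z) * lam := by
          have e3 : ((k : ℝ) + 1) / k = (N - t + 1 / 2) / (N - t - 1 / 2) := by
            have a : N - t + 1 / 2 = k + 1 := by rw [hN, ht]; push_cast; ring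
            have b : N - t - 1 / 2 = k := by rw [hN, ht]; push_cast; ring
            rw [a, b]
          rw [e3]
          exact hrat
        have e4 : (n : ℝ) * Real.log (((k : ℝ) + 1) / k) ≤ L + L * Z := by
          calc (n : ℝ) * Real.log (((k : ℝ) + 1) / k) ≤ n * ((1 + Z) * lam) :=
                mul_le_mul_of_nonneg_left e2 (Nat.cast_nonneg n)
            _ = (1 + Z) * (n * lam) := by ring
            _ ≤ (1 + Z) * L := mul_le_mul_of_nonneg_left hnl.le (by linarith)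
            _ = L + L * Z := by ring
        rw [e1]
        calc (1 / 2) * K L h t ≤ (1 / 2) * Real.exp (-(L * Z)) := by linarith
          _ = Real.exp (-(L + L * Z)) := by
              rw [neg_add, Real.exp_add, Real.exp_neg L, hLd, Real.exp_log (by norm_num)]
              norm_num
          _ ≤ _ := Real.exp_le_exp.mpr (by linarith)
      have hQ0 : 0 ≤ Q L h (t + 1) := by
        rw [Q_eq L h (t + 1) ((t + 1) * h) rfl]
        apply Q_nonneg hL1 hL2 hh0 hh2 (by positivity)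
        rw [add_mul, one_mul]
        norm_num at hh3 ⊢
        linarith
      have hstep := step_poly (L := L) (h := h) (t := t) hL1 hL2 hh0 hh2 ht0
      have hR0 : 0 ≤ R n k := by
        have := R_ge_one n k hk1; linarith
      have hρ0 : 0 ≤ ((k : ℝ) / (k + 1)) ^ n := by positivity
      calc Q L h t ≤ 1 + (1 / 2) * K L h t * Q L h (t + 1) := hstep
        _ ≤ 1 + ((k : ℝ) / (k + 1)) ^ n * Q L h (t + 1) := by
            have := mul_le_mul_of_nonneg_right hρ hQ0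
            linarith
        _ ≤ 1 + ((k : ℝ) / (k + 1)) ^ n * R n k := by
            have := mul_le_mul_of_nonneg_left ih' hρ0
            linarith
  have hfin := hind m (by omega) le_rfl
  rw [sub_self] at hfin
  -- upper bound for ((m+1)/m)^n
  have hup : (((m : ℝ) + 1) / m) ^ n < Q L h 0 := by
    have hmp : (0 : ℝ) < m := by linarith
    have e1 : (((m : ℝ) + 1) / m) ^ n = Real.exp (n * Real.log (((m : ℝ) + 1) / m)) := by
      rw [← Real.log_pow, Real.exp_log (by positivity)]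
    have e2 : Real.log (((m : ℝ) + 1) / m) ≤ (1 - h + h ^ 2) * lam := by
      have u := log_up (N := N) (by linarith)
      have a : N + 1 + 1 / 2 = m + 1 := by rw [hN]; ring
      have b : N + 1 - 1 / 2 = m := by rw [hN]; ring
      rw [a, b] at u
      exact u
    have e3 : (n : ℝ) * Real.log (((m : ℝ) + 1) / m) ≤ L + -(L * (h - h ^ 2)) := by
      have hp : 0 ≤ 1 - h + h ^ 2 := by
        have : 0 ≤ h ^ 2 := by positivity
        linarith
      calc (n : ℝ) * Real.log (((m : ℝ) + 1) / m) ≤ n * ((1 - h + h ^ 2) * lam) :=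
            mul_le_mul_of_nonneg_left e2 (Nat.cast_nonneg n)
        _ = (1 - h + h ^ 2) * (n * lam) := by ring
        _ ≤ (1 - h + h ^ 2) * L := mul_le_mul_of_nonneg_left hnl.le hp
        _ = L + -(L * (h - h ^ 2)) := by ring
    rw [e1]
    have hz : 0 ≤ L * (h - h ^ 2) := by
      apply mul_nonneg hL0.le
      have : h * h ≤ h * 1 := mul_le_mul_of_nonneg_left (by linarith) hh0.le
      have e : h ^ 2 = h * h := by ring
      rw [e]; linarith
    calc Real.exp (n * Real.log (((m : ℝ) + 1) / m)) ≤ Real.exp (L + -(L * (h - h ^ 2))) :=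
          Real.exp_le_exp.mpr e3
      _ = 2 * Real.exp (-(L * (h - h ^ 2))) := by
          rw [Real.exp_add, hLd, Real.exp_log (by norm_num)]
      _ ≤ 2 * (1 - L * (h - h ^ 2) + (L * (h - h ^ 2)) ^ 2 / 2) := by
          have := exp_up hz
          linarith
      _ < Q L h 0 := fin_ineq hL1 hL2 hh0 hh1
  have hfin2 : (((m : ℝ) + 1) / m) ^ n < R n m := lt_of_lt_of_le hup hfin
  unfold R at hfin2
  rw [div_pow] at hfin2
  have hmn : (0 : ℝ) < (m : ℝ) ^ n := by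
    have : (0 : ℝ) < m := by linarith
    positivity
  exact (div_lt_div_iff_of_pos_right hmn).mp hfin2

end Pool.Agent.Q33.ErdosPow
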