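import Pool.Agent.Q33.ErdosPowC

set_option autoImplicit false

namespace Pool.Agent.Q33.ErdosPow

/-- sum of n-th powers, computable -/
def S (n : ℕ) : ℕ → ℕ
  | 0 => 0
  | k + 1 => S n k + (k + 1) ^ n

lemma S_eq (n k : ℕ) : S n k = ∑ i ∈ Finset.Icc 1 k, i ^ n := by
  induction k with
  | zero => simp [S]
  | succ k ih => rw [S, ih, Finset.sum_Icc_succ_top (by omega)]

def nn (m : ℕ) : ℕ := (2 * m - 1) * 69315 / 200000

def chk (m : ℕ) : Bool :=
  decide (2 * (m - 1) ^ (nn m + 1) ≤ m ^ (nn m + 1)) && decide ((m + 1) ^ (nn m) < S (nn m) m)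

def chkAll : ℕ → Bool
  | 0 => true
  | k + 1 => chkAll k && chk (k + 3)

lemma chkAll_ok : chkAll 247 = true := by decide +kernel

lemma chk_ok (m : ℕ) (h3 : 3 ≤ m) (hm : m < 250) : chk m = true := by
  have key : ∀ k j, j < k → chkAll k = true → chk (j + 3) = true := by
    intro k
    induction k with
    | zero => intro j hj; omega
    | succ k ih =>
      intro j hj h
      rw [chkAll, Bool.and_eq_true] at h
      rcases Nat.lt_succ_iff_lt_or_eq.mp hj with h1 | h1
      · exact ih j h1 h.1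
      · subst h1; exact h.2
  have := key 247 (m - 3) (by omega) chkAll_ok
  rwa [Nat.sub_add_cancel h3] at this

lemma S_step (n m : ℕ) (h : (m + 1) ^ (n + 1) < S (n + 1) m) : (m + 1) ^ n < S n m := by
  have h1 : S (n + 1) m ≤ m * S n m := by
    have : ∀ k, k ≤ m → S (n + 1) k ≤ m * S n k := by
      intro k
      induction k with
      | zero => intro _; simp [S]
      | succ k ih =>
        intro hk
        rw [S, S, mul_add]
        have := ih (by omega)
        have h2 : (k + 1) ^ (n + 1) ≤ m * (k + 1) ^ n := by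
          rw [pow_succ, mul_comm]
          exact Nat.mul_le_mul_right _ hk
        omega
    exact this m le_rfl
  have h2 : (m + 1) ^ (n + 1) = (m + 1) * (m + 1) ^ n := by rw [pow_succ]; ring
  by_contra hc
  push Not at hc
  have h3 : m * S n m ≤ m * (m + 1) ^ n := Nat.mul_le_mul_left _ hc
  have h4 : m * (m + 1) ^ n ≤ (m + 1) * (m + 1) ^ n := Nat.mul_le_mul_right _ (by omega)
  omega

lemma S_down (n d m : ℕ) (h : (m + 1) ^ (n + d) < S (n + d) m) : (m + 1) ^ n < S n m := by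
  induction d with
  | zero => exact h
  | succ d ih => exact ih (S_step _ _ h)

lemma adm_down (m a b : ℕ) (hm : 1 ≤ m) (hab : a ≤ b) (h : 2 * (m - 1) ^ a ≤ m ^ a) :
    2 * (m - 1) ^ b ≤ m ^ b := by
  obtain ⟨d, rfl⟩ := Nat.exists_eq_add_of_le hab
  rw [pow_add, pow_add, ← mul_assoc]
  exact Nat.mul_le_mul h (Nat.pow_le_pow_left (by omega) d)

lemma main_small (m n : ℕ) (h3 : 3 ≤ m) (hm : m < 250) (hadm : m ^ n < 2 * (m - 1) ^ n) :
    (m + 1) ^ n < S n m := by
  have hc := chk_ok m h3 hm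
  unfold chk at hc
  rw [Bool.and_eq_true, decide_eq_true_eq, decide_eq_true_eq] at hc
  have hn : n ≤ nn m := by
    by_contra hcon
    push Not at hcon
    have := adm_down m (nn m + 1) n (by omega) hcon hc.1
    omega
  obtain ⟨d, hd⟩ := Nat.exists_eq_add_of_le hn
  apply S_down n d m
  rw [← hd]
  exact hc.2

lemma main_all (m n : ℕ) (hn : 1 ≤ n) (hm : 2 ≤ m) (hadm : (1 - 1 / (m : ℝ)) ^ n > 1 / 2) :
    (m + 1) ^ n < ∑ i ∈ Finset.Icc 1 m, i ^ n := by
  have hmR : (2 : ℝ) ≤ m := by exact_mod_cast hm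
  by_cases h250 : 250 ≤ m
  · have := main_large m n h250 hadm
    exact_mod_cast this
  · push Not at h250
    have hadm' : m ^ n < 2 * (m - 1) ^ n := by
      have e : (1 - 1 / (m : ℝ)) ^ n = ((m : ℝ) - 1) ^ n / (m : ℝ) ^ n := by
        rw [← div_pow]
        congr 1
        field_simp
      rw [e, gt_iff_lt, div_lt_div_iff₀ (by norm_num) (by positivity)] at hadm
      have h2 : ((m ^ n : ℕ) : ℝ) < ((2 * (m - 1) ^ n : ℕ) : ℝ) := by
        push_cast [Nat.cast_sub (by omega : 1 ≤ m)]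
        linarith
      exact_mod_cast h2
    rcases Nat.lt_or_ge m 3 with h | h
    · have : m = 2 := by omega
      subst this
      exfalso
      have : 2 ^ 1 ≤ 2 ^ n := Nat.pow_le_pow_right (by norm_num) hn
      simp at hadm'
      omega
    · rw [← S_eq]
      exact main_small m n h h250 hadm'

/-- first inequality -/
lemma first_ineq (K n : ℕ) (hK : 1 ≤ K) (hadm : 2 * (K - 1) ^ n < K ^ n) :
    ∑ i ∈ Finset.Icc 1 (K - 1), i ^ n < K ^ n := by
  -- i = K - j
  have hKR : (1 : ℝ) ≤ K := by exact_mod_cast hK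
  have hKp : (0 : ℝ) < K := by linarith
  set b : ℝ := 1 - 1 / K with hb
  have hb0 : 0 ≤ b := by
    rw [hb]
    have : 1 / (K : ℝ) ≤ 1 := by rw [div_le_one hKp]; exact hKR
    linarith
  set a : ℝ := b ^ n with ha
  have ha0 : 0 ≤ a := by positivity
  have ha1 : a < 1 / 2 := by
    have e : b ^ n = ((K : ℝ) - 1) ^ n / (K : ℝ) ^ n := by
      rw [← div_pow, hb]
      congr 1
      field_simp
    rw [ha, e, div_lt_div_iff₀ (by positivity) (by norm_num)]
    have h2 : ((2 * (K - 1) ^ n : ℕ) : ℝ) < ((K ^ n : ℕ) : ℝ) := by exact_mod_cast hadm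
    push_cast [Nat.cast_sub hK] at h2
    linarith
  have hterm : ∀ j ∈ Finset.range (K - 1), (((K - 1 - j : ℕ) : ℝ)) ^ n ≤ (K : ℝ) ^ n * a ^ (j + 1) := by
    intro j hj
    rw [Finset.mem_range] at hj
    have h1 : ((K - 1 - j : ℕ) : ℝ) = K * (1 + ((j + 1 : ℕ) : ℝ) * (-(1 / K))) := by
      rw [Nat.cast_sub (by omega), Nat.cast_sub hK]
      push_cast
      field_simp
      ring
    have h2 : 1 + ((j + 1 : ℕ) : ℝ) * (-(1 / (K : ℝ))) ≤ b ^ (j + 1) := by
      have := one_add_mul_le_pow (a := -(1 / (K : ℝ))) (by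
        have : 1 / (K : ℝ) ≤ 1 := by rw [div_le_one hKp]; exact hKR
        linarith) (j + 1)
      rw [hb, sub_eq_add_neg]
      exact this
    have h0 : 0 ≤ 1 + ((j + 1 : ℕ) : ℝ) * (-(1 / (K : ℝ))) := by
      by_contra hneg
      push Not at hneg
      have h3 : (K : ℝ) * (1 + ((j + 1 : ℕ) : ℝ) * (-(1 / K))) < 0 := mul_neg_of_pos_of_neg hKp hneg
      rw [← h1] at h3
      have : (0 : ℝ) ≤ ((K - 1 - j : ℕ) : ℝ) := Nat.cast_nonneg _
      linarith
    rw [h1, mul_pow]
    apply mul_le_mul_of_nonneg_left _ (by positivity)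
    calc (1 + ((j + 1 : ℕ) : ℝ) * (-(1 / (K : ℝ)))) ^ n ≤ (b ^ (j + 1)) ^ n := pow_le_pow_left₀ h0 h2 n
      _ = a ^ (j + 1) := by rw [ha, ← pow_mul, ← pow_mul, mul_comm]
  have hsum : ∑ i ∈ Finset.Icc 1 (K - 1), i ^ n = ∑ j ∈ Finset.range (K - 1), (K - 1 - j) ^ n := by
    refine Finset.sum_nbij' (fun i => K - 1 - i) (fun j => K - 1 - j) ?_ ?_ ?_ ?_ ?_
    · intro i hi; rw [Finset.mem_Icc] at hi; rw [Finset.mem_range]; omega
    · intro j hj; rw [Finset.mem_range] at hj; rw [Finset.mem_Icc]; omega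
    · intro i hi; rw [Finset.mem_Icc] at hi; omega
    · intro j hj; rw [Finset.mem_range] at hj; omega
    · intro i hi; rw [Finset.mem_Icc] at hi; congr 1; omega
  have hgeo : ∀ r : ℕ, ∑ j ∈ Finset.range r, a ^ (j + 1) < 1 ∨ r = 0 := by
    intro r
    left
    have h1 : ∀ r : ℕ, ∑ j ∈ Finset.range r, a ^ (j + 1) ≤ 1 - (1 / 2) ^ r := by
      intro r
      induction r with
      | zero => simp
      | succ r ih =>
        rw [Finset.sum_range_succ]
        have : a ^ (r + 1) ≤ (1 / 2) ^ (r + 1) := pow_le_pow_left₀ ha0 ha1.le _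
        have e : (1 / 2 : ℝ) ^ r = 2 * (1 / 2) ^ (r + 1) := by rw [pow_succ]; ring
        linarith
    have := h1 r
    have h2 : (0 : ℝ) < (1 / 2) ^ r := by positivity
    linarith
  rw [hsum]
  have hR : ((∑ j ∈ Finset.range (K - 1), (K - 1 - j) ^ n : ℕ) : ℝ) < ((K ^ n : ℕ) : ℝ) := by
    push_cast
    have h1 : ∑ j ∈ Finset.range (K - 1), (((K - 1 - j : ℕ) : ℝ)) ^ n ≤
        ∑ j ∈ Finset.range (K - 1), (K : ℝ) ^ n * a ^ (j + 1) := Finset.sum_le_sum hterm
    rw [← Finset.mul_sum] at h1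
    rcases hgeo (K - 1) with h | h
    · calc _ ≤ _ := h1
        _ < (K : ℝ) ^ n * 1 := mul_lt_mul_of_pos_left h (by positivity)
        _ = _ := mul_one _
    · rw [h]
      simp
      positivity
  exact_mod_cast hR

end Pool.Agent.Q33.ErdosPow
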